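import Mathlib

set_option autoImplicit false

/-!
# The combinatorial core: sets with small intersections along bounded sets

Let `L` be a well-order, `d` a function assigning to `β < α` an element `d β α` of a well-order
`I`, such that for every `α`, `m` there are at most `c m < #K` many `β < α` with `d β α ≤ m`.
Given sets `A i ⊆ K` (`i ∈ L`) of cardinality `#K`, there are sets `S α ⊆ K` such that `S α` meets
`A i` for all `i < α`, and the intersection of the sets `S α` (`α ∈ C`) is small whenever `C` is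
infinite and `d` is bounded on `C`.
-/

open Cardinal Set

namespace Pool.Agent.helper60.PR

universe u v

section

variable {K L : Type u} {I : Type v} [LinearOrder L] [WellFoundedLT L] [LinearOrder I] [WellFoundedLT I]

/-- The set of the points `x i α` with `d i α ≤ m`. -/
def XS (d : L → L → I) (x : L → L → K) (m : I) (α : L) : Set K :=
  {y | ∃ i, i < α ∧ d i α ≤ m ∧ x i α = y}

theorem mk_XS_le {d : L → L → I} {c : I → Cardinal.{u}}
    (hd : ∀ α m, #{β : L | β < α ∧ d β α ≤ m} ≤ c m) (x : L → L → K) (m : I) (α : L) :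
    #(XS d x m α) ≤ c m := by
  refine le_trans ?_ (hd α m)
  have : XS d x m α = (fun i => x i α) '' {β : L | β < α ∧ d β α ≤ m} := by
    ext y
    constructor
    · rintro ⟨i, h1, h2, h3⟩
      exact ⟨i, ⟨h1, h2⟩, h3⟩
    · rintro ⟨i, ⟨h1, h2⟩, h3⟩
      exact ⟨i, h1, h2, h3⟩
  rw [this]
  exact mk_image_le

/-- One step of the recursion. -/
theorem exists_avoid {d : L → L → I} {c : I → Cardinal.{u}} (hc : ∀ m, ℵ₀ ≤ c m)
    (hcK : ∀ m, c m < #K) (hd : ∀ α m, #{β : L | β < α ∧ d β α ≤ m} ≤ c m)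
    {A : Set K} (hA : #A = #K) (α : L) (m : I) (x : L → L → K) :
    ∃ y ∈ A, ∀ β, β < α → d β α ≤ m → y ∉ XS d x m β := by
  by_contra hcon
  push Not at hcon
  have h1 : A ⊆ ⋃ β ∈ {β : L | β < α ∧ d β α ≤ m}, XS d x m β := by
    intro y hy
    obtain ⟨β, h2, h3, h4⟩ := hcon y hy
    simp only [mem_iUnion]
    exact ⟨β, ⟨h2, h3⟩, h4⟩
  have h2 : #A ≤ c m := by
    refine (mk_le_mk_of_subset h1).trans ?_
    refine (mk_biUnion_le _ _).trans ?_
    refine (mul_le_mul' (hd α m) (ciSup_le' (a := c m) fun β => mk_XS_le hd x m _)).trans ?_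
    exact (mul_eq_self (hc m)).le
  rw [hA] at h2
  exact absurd h2 (not_le.2 (hcK m))

theorem exists_x {d : L → L → I} {c : I → Cardinal.{u}} (hc : ∀ m, ℵ₀ ≤ c m)
    (hcK : ∀ m, c m < #K) (hd : ∀ α m, #{β : L | β < α ∧ d β α ≤ m} ≤ c m)
    {A : L → Set K} (hA : ∀ i, #(A i) = #K) :
    ∃ x : L → L → K, ∀ i α, i < α → x i α ∈ A i ∧
      ∀ β, β < α → d β α ≤ d i α → x i α ∉ XS d x (d i α) β := by
  classical
  -- `g α` is the function `i ↦ x i α`
  let F : (α : L) → ((β : L) → β < α → L → K) → L → K := fun α h i =>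
    if hi : i < α then
      (exists_avoid hc hcK hd (hA i) α (d i α)
        (fun i' β => if hβ : β < α then h β hβ i' else h i hi i')).choose
    else (Classical.choice (by
      have : #K ≠ 0 := (lt_of_le_of_lt zero_le (hcK (d i α))).ne'
      exact mk_ne_zero_iff.1 this) : K)
  let g : L → L → K := wellFounded_lt.fix F
  have hg : ∀ α, g α = F α (fun β _ => g β) := fun α => wellFounded_lt.fix_eq F α
  refine ⟨fun i α => g α i, fun i α hi => ?_⟩
  have h1 : g α i = (exists_avoid hc hcK hd (hA i) α (d i α)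
        (fun i' β => if hβ : β < α then g β i' else g i i')).choose := by
    rw [hg α]
    show (if hi : i < α then _ else _) = _
    rw [dif_pos hi]
  have h2 := (exists_avoid hc hcK hd (hA i) α (d i α)
        (fun i' β => if hβ : β < α then g β i' else g i i')).choose_spec
  rw [← h1] at h2
  refine ⟨h2.1, fun β hβ hdβ hmem => h2.2 β hβ hdβ ?_⟩
  obtain ⟨j, hj1, hj2, hj3⟩ := hmem
  refine ⟨j, hj1, hj2, ?_⟩
  show (if hβ : β < α then g β j else g i j) = _
  rw [dif_pos hβ]
  exact hj3

/-- An infinite subset of a well-order contains an increasing sequence. -/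
theorem exists_strictMono_of_infinite {C : Set L} (hC : C.Infinite) :
    ∃ a : ℕ → L, StrictMono a ∧ ∀ n, a n ∈ C := by
  have : Infinite C := hC.to_subtype
  obtain ⟨g, hg⟩ := exists_increasing_or_nonincreasing_subseq (· < ·)
    (fun n => (Infinite.natEmbedding C n : L))
  rcases hg with hg | hg
  · exact ⟨fun n => (Infinite.natEmbedding C (g n) : L), fun m n h => hg m n h,
      fun n => (Infinite.natEmbedding C (g n)).2⟩
  · exfalso
    have h1 : ∀ m n, m < n → ((Infinite.natEmbedding C (g n) : L)) <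
        (Infinite.natEmbedding C (g m) : L) := by
      intro m n h
      have h2 := hg m n h
      rw [not_lt] at h2
      refine lt_of_le_of_ne h2 fun h3 => ?_
      have h4 := (Infinite.natEmbedding C).injective (Subtype.ext h3)
      exact absurd (g.injective h4) h.ne'
    have h5 : WellFounded ((· < ·) : L → L → Prop) := wellFounded_lt
    exact (RelEmbedding.wellFounded_iff_isEmpty.1 h5).elim
      (RelEmbedding.natGT (fun n => (Infinite.natEmbedding C (g n) : L))
        fun n => h1 n (n + 1) n.lt_succ_self)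

/-- The combinatorial core. -/
theorem exists_S {d : L → L → I} {c : I → Cardinal.{u}} (hc : ∀ m, ℵ₀ ≤ c m)
    (hcK : ∀ m, c m < #K) (hd : ∀ α m, #{β : L | β < α ∧ d β α ≤ m} ≤ c m)
    {A : L → Set K} (hA : ∀ i, #(A i) = #K) :
    ∃ S : L → Set K, (∀ i α, i < α → (S α ∩ A i).Nonempty) ∧
      ∀ (C : Set L) (m : I), C.Infinite → (∀ β ∈ C, ∀ α ∈ C, β < α → d β α ≤ m) →
        #{y : K | ∀ α ∈ C, y ∈ S α} < #K := by
  classical
  obtain ⟨x, hx⟩ := exists_x hc hcK hd hA
  refine ⟨fun α => {y | ∃ i, i < α ∧ x i α = y}, fun i α hi =>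
    ⟨x i α, ⟨i, hi, rfl⟩, (hx i α hi).1⟩, fun C m hC hCm => ?_⟩
  obtain ⟨a, ha, haC⟩ := exists_strictMono_of_infinite hC
  refine lt_of_le_of_lt ?_ (hcK m)
  have h1 : {y : K | ∀ α ∈ C, ∃ i, i < α ∧ x i α = y} ⊆ ⋃ n, XS d x m (a n) := by
    intro y hy
    by_contra hcon
    simp only [mem_iUnion, not_exists] at hcon
    -- the ranks
    have h2 : ∀ n, ∃ r : I, (∃ i, i < a n ∧ x i (a n) = y ∧ d i (a n) = r) ∧
        ∀ s : I, (∃ i, i < a n ∧ x i (a n) = y ∧ d i (a n) = s) → r ≤ s := by
      intro n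
      have h3 : {r : I | ∃ i, i < a n ∧ x i (a n) = y ∧ d i (a n) = r}.Nonempty := by
        obtain ⟨i, h4, h5⟩ := hy (a n) (haC n)
        exact ⟨d i (a n), i, h4, h5, rfl⟩
      refine ⟨wellFounded_lt.min _ h3, wellFounded_lt.min_mem _ h3, fun s hs => ?_⟩
      exact not_lt.1 (wellFounded_lt.not_lt_min {r : I | ∃ i, i < a n ∧ x i (a n) = y ∧
        d i (a n) = r} hs)
    choose r hr1 hr2 using h2
    have h4 : ∀ n, m < r n := by
      intro n
      obtain ⟨i, h5, h6, h7⟩ := hr1 n
      by_contra h8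
      rw [not_lt] at h8
      exact hcon n ⟨i, h5, h7.le.trans h8, h6⟩
    have h5 : ∀ n, r (n + 1) < r n := by
      intro n
      obtain ⟨i, h6, h7, h8⟩ := hr1 (n + 1)
      have h9 : d (a n) (a (n + 1)) ≤ d i (a (n + 1)) := by
        rw [h8]
        exact (hCm _ (haC n) _ (haC (n + 1)) (ha n.lt_succ_self)).trans (h4 (n + 1)).le
      have h10 := (hx i (a (n + 1)) h6).2 (a n) (ha n.lt_succ_self) h9
      rw [h7, h8] at h10
      by_contra h11
      rw [not_lt] at h11
      obtain ⟨j, h12, h13, h14⟩ := hr1 n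
      exact h10 ⟨j, h12, h14.le.trans h11, h13⟩
    have h6 : WellFounded ((· < ·) : I → I → Prop) := wellFounded_lt
    exact (RelEmbedding.wellFounded_iff_isEmpty.1 h6).elim (RelEmbedding.natGT r h5)
  refine (mk_le_mk_of_subset h1).trans ?_
  have h7 : (⋃ n, XS d x m (a n)) = ⋃ n : ULift.{u} ℕ, XS d x m (a n.down) := by
    ext y
    simp only [mem_iUnion, ULift.exists]
  rw [h7]
  refine (mk_iUnion_le _).trans ?_
  refine (mul_le_mul' (le_of_eq ?_) (ciSup_le' (a := c m) fun n => mk_XS_le hd x m _)).trans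
    (le_of_eq (mul_eq_right (hc m) (hc m) aleph0_ne_zero))
  simp

end

end Pool.Agent.helper60.PR
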