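import Mathlib
import Pool.Agent.helper60.PR.Core

set_option autoImplicit false

/-!
# A coloring of the pairs of `κ⁺` with bounded infinite sets, from approachability
-/

open Cardinal Set

namespace Pool.Agent.helper60.PR

universe u

/-- Levels: a set of size at most `κ = sup c m` is the union of sets of size at most `c m`. -/
theorem exists_level {κ : Cardinal.{u}} {c : ℕ → Cardinal.{u}} (hc : ∀ m, ℵ₀ ≤ c m)
    (hmono : StrictMono c) (hsup : ∀ x < κ, ∃ m, x ≤ c m) {L : Type u} (s : Set L) (hs : #s ≤ κ) :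
    ∃ ℓ : L → ℕ, ∀ m, #{x : L | x ∈ s ∧ ℓ x ≤ m} ≤ c m := by
  classical
  have h1 : κ ≤ #(Σ m : ULift.{u} ℕ, (c m.down).out) := by
    rw [mk_sigma]
    simp only [mk_out]
    by_contra h
    rw [not_le] at h
    obtain ⟨m, hm⟩ := hsup _ h
    have h2 : c (m + 1) ≤ Cardinal.sum fun m : ULift.{u} ℕ => c m.down :=
      le_sum (fun m : ULift.{u} ℕ => c m.down) ⟨m + 1⟩
    exact absurd (h2.trans hm) (not_le.2 (hmono m.lt_succ_self))
  obtain ⟨e⟩ := Cardinal.le_def _ _ |>.1 (hs.trans h1)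
  refine ⟨fun x => if hx : x ∈ s then (e ⟨x, hx⟩).1.down else 0, fun m => ?_⟩
  have h2 : ∀ k, #{x : L | ∃ hx : x ∈ s, (e ⟨x, hx⟩).1.down = k} ≤ c k := by
    intro k
    rw [← mk_out (c k)]
    refine Cardinal.mk_le_of_injective (f := fun x => cast (by rw [x.2.2] : _ = (c k).out)
      (e ⟨x.1, x.2.1⟩).2) ?_
    rintro ⟨x, hx, hxk⟩ ⟨y, hy, hyk⟩ hxy
    have h3 : e ⟨x, hx⟩ = e ⟨y, hy⟩ := by
      refine Sigma.ext (ULift.ext _ _ (hxk.trans hyk.symm)) ?_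
      exact ((cast_heq _ _).symm.trans (heq_of_eq hxy)).trans (cast_heq _ _)
    have h4 := e.injective h3
    simpa using h4
  have h3 : {x : L | x ∈ s ∧ (if hx : x ∈ s then (e ⟨x, hx⟩).1.down else 0) ≤ m} ⊆
      ⋃ k : ULift.{u} (Fin (m + 1)), {x : L | ∃ hx : x ∈ s, (e ⟨x, hx⟩).1.down = k.down.1} := by
    rintro x ⟨hx, hm⟩
    rw [dif_pos hx] at hm
    exact mem_iUnion.2 ⟨⟨⟨_, Nat.lt_succ_of_le hm⟩⟩, hx, rfl⟩
  refine (mk_le_mk_of_subset h3).trans ((mk_iUnion_le _).trans ?_)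
  refine (mul_le_mul' (?_ : _ ≤ c m) (ciSup_le' (a := c m) fun k => ?_)).trans
    (mul_eq_self (hc m)).le
  · refine le_trans (le_of_lt ?_) (hc m)
    exact lt_aleph0_of_finite _
  · exact (h2 _).trans (hmono.monotone (Nat.le_of_lt_succ k.down.2))

/-- The number of countable subsets of a set. -/
theorem mk_countable_subsets_le {L : Type u} {κ b : Cardinal.{u}} (hb : ℵ₀ ≤ b)
    (hpow : b ^ (ℵ₀ : Cardinal.{u}) ≤ κ) (W : Set L) (hW : #W ≤ b) :
    #{T : Set L | T ⊆ W ∧ T.Countable} ≤ κ := by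
  have h1 : #{T : Set L | T ⊆ W ∧ T.Countable} ≤ #{t : Set W // #t ≤ ℵ₀} := by
    refine Cardinal.mk_le_of_injective
      (f := fun T => ⟨{x : W | x.1 ∈ T.1}, ?_⟩) ?_
    · rw [le_aleph0_iff_set_countable]
      exact T.2.2.preimage Subtype.val_injective
    · rintro ⟨T, hT, hTc⟩ ⟨T', hT', hTc'⟩ h
      have h2 := Set.ext_iff.1 (Subtype.ext_iff.1 h)
      refine Subtype.ext (Set.ext fun x => ?_)
      constructor
      · intro hx
        exact (h2 ⟨x, hT hx⟩).1 hx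
      · intro hx
        exact (h2 ⟨x, hT' hx⟩).2 hx
  refine h1.trans ((mk_bounded_set_le _ _).trans (le_trans ?_ hpow))
  exact power_le_power_right (max_le hW hb)

section

variable {L : Type u} [LinearOrder L] [WellFoundedLT L]

/-- The least strict upper bound. -/
theorem exists_lsub {s : Set L} (h : ∃ b, ∀ x ∈ s, x < b) :
    ∃ b, (∀ x ∈ s, x < b) ∧ ∀ y < b, ∃ x ∈ s, y ≤ x := by
  refine ⟨wellFounded_lt.min {b | ∀ x ∈ s, x < b} h, wellFounded_lt.min_mem _ h, fun y hy => ?_⟩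
  by_contra hcon
  push Not at hcon
  exact wellFounded_lt.not_lt_min {b | ∀ x ∈ s, x < b} (x := y) hcon hy

/-- Closure points of a function form a club. -/
theorem isClub_closure {κ : Cardinal.{u}} (hκ : ℵ₀ ≤ κ) (h1 : ∀ α : L, #(Iic α) ≤ κ)
    (h2 : ∀ s : Set L, #s ≤ κ → ∃ b, ∀ x ∈ s, x < b) (Φ : L → L) :
    IsClub {γ : L | ∀ ξ < γ, Φ ξ < γ} := by
  refine ⟨?_, fun x => ?_⟩
  · intro t ht htn _ γ hγ ξ hξ
    obtain ⟨δ, hδ, hξδ⟩ : ∃ δ ∈ t, ξ < δ := by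
      by_contra hcon
      push Not at hcon
      exact absurd (hγ.2 (fun δ hδ => hcon δ hδ)) (not_le.2 hξ)
    exact (ht hδ ξ hξδ).trans_le (hγ.1 hδ)
  · have h3 : ∀ y : L, ∃ z, y < z ∧ ∀ ξ ≤ y, Φ ξ < z := by
      intro y
      obtain ⟨b, hb⟩ := h2 (insert y (Φ '' Iic y)) (by
        refine (mk_insert_le).trans ?_
        refine (add_le_add (mk_image_le.trans (h1 y)) (one_le_aleph0.trans hκ)).trans ?_
        exact (add_eq_self hκ).le)
      exact ⟨b, hb y (mem_insert _ _), fun ξ hξ => hb _ (mem_insert_of_mem _ ⟨ξ, hξ, rfl⟩)⟩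
    choose nx hnx1 hnx2 using h3
    let g : ℕ → L := fun n => Nat.rec x (fun _ y => nx y) n
    have hg : ∀ n, g (n + 1) = nx (g n) := fun n => rfl
    obtain ⟨b, hb1, hb2⟩ := exists_lsub (s := range g) (h2 _ (by
      refine le_trans ?_ hκ
      rw [le_aleph0_iff_set_countable]
      exact countable_range g))
    refine ⟨b, fun ξ hξ => ?_, (hb1 _ ⟨0, rfl⟩).le⟩
    obtain ⟨_, ⟨n, rfl⟩, hn⟩ := hb2 ξ hξ
    exact (hnx2 (g n) ξ hn).trans (hb1 _ ⟨n + 1, rfl⟩)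

/-- The set of the `β` which have level at most `n` below some `q ∈ X`. -/
def WS (ℓ : L → L → ℕ) (X : Set L) (n : ℕ) : Set L := {β | ∃ q ∈ X, β < q ∧ ℓ q β ≤ n}

theorem mk_WS_le {c : ℕ → Cardinal.{u}} (hc : ∀ m, ℵ₀ ≤ c m) {ℓ : L → L → ℕ}
    (hℓ : ∀ α m, #{β : L | β < α ∧ ℓ α β ≤ m} ≤ c m) {X : Set L} (hX : X.Countable) (n : ℕ) :
    #(WS ℓ X n) ≤ c n := by
  have h1 : WS ℓ X n ⊆ ⋃ q ∈ X, {β : L | β < q ∧ ℓ q β ≤ n} := by
    rintro β ⟨q, hq, h⟩
    simp only [mem_iUnion]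
    exact ⟨q, hq, h⟩
  refine (mk_le_mk_of_subset h1).trans ((mk_biUnion_le _ _).trans ?_)
  refine (mul_le_mul' ((le_aleph0_iff_set_countable.2 hX).trans (hc n))
    (ciSup_le' (a := c n) fun q => hℓ _ n)).trans (mul_eq_self (hc n)).le

/-- The sets `D m α`. -/
def DS (ℓ : L → L → ℕ) (cls : L → Set L) (g : L → ℕ) (C : L → Set L) (m : ℕ) (α : L) : Set L :=
  {β | β < α ∧ (ℓ α β ≤ m ∨ (cls β = cls α ∧ g β ≤ m) ∨ ∃ ξ < α, ℓ α ξ ≤ m ∧ β ∈ C ξ)}

theorem mk_DS_le {c : ℕ → Cardinal.{u}} (hc : ∀ m, ℵ₀ ≤ c m) {ℓ : L → L → ℕ}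
    (hℓ : ∀ α m, #{β : L | β < α ∧ ℓ α β ≤ m} ≤ c m) {cls : L → Set L} {g : L → ℕ}
    (hg : ∀ α m, #{β : L | cls β = cls α ∧ g β ≤ m} ≤ c m) {C : L → Set L}
    (hC : ∀ ξ, (C ξ).Countable) (m : ℕ) (α : L) : #(DS ℓ cls g C m α) ≤ c m := by
  have h1 : DS ℓ cls g C m α ⊆ ({β : L | β < α ∧ ℓ α β ≤ m} ∪
      {β : L | cls β = cls α ∧ g β ≤ m}) ∪ ⋃ ξ ∈ {ξ : L | ξ < α ∧ ℓ α ξ ≤ m}, C ξ := by
    rintro β ⟨h, h1 | h1 | ⟨ξ, h1, h2, h3⟩⟩
    · exact Or.inl (Or.inl ⟨h, h1⟩)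
    · exact Or.inl (Or.inr h1)
    · refine Or.inr ?_
      simp only [mem_iUnion]
      exact ⟨ξ, ⟨h1, h2⟩, h3⟩
  refine (mk_le_mk_of_subset h1).trans ((mk_union_le _ _).trans ?_)
  have h2 : #(⋃ ξ ∈ {ξ : L | ξ < α ∧ ℓ α ξ ≤ m}, C ξ : Set L) ≤ c m := by
    refine (mk_biUnion_le _ _).trans ?_
    refine (mul_le_mul' (hℓ α m) (ciSup_le' (a := c m) fun ξ =>
      (le_aleph0_iff_set_countable.2 (hC _)).trans (hc m))).trans (mul_eq_self (hc m)).le
  refine (add_le_add ((mk_union_le _ _).trans (add_le_add (hℓ α m) (hg α m))) h2).trans ?_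
  rw [add_eq_self (hc m), add_eq_self (hc m)]

theorem exists_seq {P : L → Prop} {R : L → L → Prop} (h0 : ∃ x, P x)
    (h : ∀ x, P x → ∃ y, P y ∧ R x y) : ∃ a : ℕ → L, (∀ n, P (a n)) ∧ ∀ n, R (a n) (a (n + 1)) := by
  classical
  obtain ⟨x0, hx0⟩ := h0
  choose! nx h1 h2 using h
  let a : ℕ → L := fun n => Nat.rec x0 (fun _ y => nx y) n
  have ha : ∀ n, P (a n) := by
    intro n
    induction n with
    | zero => exact hx0
    | succ n ih => exact h1 _ ih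
  exact ⟨a, ha, fun n => h2 _ (ha n)⟩

/-- `γ` is approachable with respect to the sequence `a`: some cofinal subset of `γ` all of whose
proper initial segments are countable and are enumerated by `a` before `γ`. -/
def Appr (a : L → Set L) (γ : L) : Prop :=
  ∃ A ⊆ Iio γ, (∀ β < γ, ∃ x ∈ A, β < x) ∧ (∀ β < γ, (A ∩ Iio β).Countable) ∧
    ∀ β < γ, ∃ ξ < γ, a ξ = A ∩ Iio β

/-- Every set of cardinality `ℵ₁` has an infinite bounded subset, or it is cofinal in a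
non-approachable point. -/
theorem exists_bounded {κ : Cardinal.{u}} {c : ℕ → Cardinal.{u}} (hκ : ℵ₀ ≤ κ)
    (hc : ∀ m, ℵ₀ ≤ c m) (hpow : ∀ m, (c m) ^ (ℵ₀ : Cardinal.{u}) ≤ κ)
    (h1 : ∀ α : L, #(Iic α) ≤ κ) (h2 : ∀ s : Set L, #s ≤ κ → ∃ b, ∀ x ∈ s, x < b)
    {ℓ : L → L → ℕ} (hℓ : ∀ α m, #{β : L | β < α ∧ ℓ α β ≤ m} ≤ c m)
    {C : L → Set L} (hCs : ∀ T : Set L, T.Countable → ∃ ξ, C ξ = T)
    (a : L → Set L) {E : Set L} (hE : IsClub E) (hcof : Order.cof L ≠ ℵ₀) :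
    ∃ (cls : L → Set L), (∀ α, ∃ b, ∀ β, cls β = cls α → β < b) ∧
      ∀ g : L → ℕ, ∀ B : Set L, #B = ℵ₁ →
        (∃ γ ∈ E, Order.cof (Iio γ) = ℵ₁ ∧ ¬ Appr a γ ∧ ¬ (B ∩ Iio γ).Countable ∧
          ∀ β < γ, (B ∩ Iio β).Countable) ∨
        ∃ (D : Set L) (m : ℕ), D ⊆ B ∧ D.Infinite ∧
          ∀ β ∈ D, ∀ α ∈ D, β < α → β ∈ DS ℓ cls g C m α := by
  classical
  -- the closure function
  have h3 : ∀ ξ : L, ∃ b, ∀ n (T : Set L), (a ξ).Countable → T ⊆ WS ℓ (a ξ) n → T.Countable →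
      ∃ η < b, C η = T := by
    intro ξ
    by_cases hξ : (a ξ).Countable
    · have : Nonempty L := ⟨ξ⟩
      choose! idx hidx using hCs
      obtain ⟨b, hb⟩ := h2 (⋃ n : ULift.{u} ℕ, idx '' {T | T ⊆ WS ℓ (a ξ) n.down ∧ T.Countable}) (by
        refine (mk_iUnion_le _).trans ?_
        refine (mul_le_mul' (?_ : _ ≤ κ) (ciSup_le' (a := κ) fun n => ?_)).trans
          (mul_eq_self hκ).le
        · simpa using hκ
        · exact mk_image_le.trans (mk_countable_subsets_le (hc _) (hpow _) _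
            (mk_WS_le hc hℓ hξ _)))
      exact ⟨b, fun n T _ hT hTc => ⟨idx T, hb _ (mem_iUnion.2 ⟨⟨n⟩, T, ⟨hT, hTc⟩, rfl⟩),
        hidx T hTc⟩⟩
    · obtain ⟨b, hb⟩ := h2 ∅ (by simp)
      exact ⟨b, fun n T h => absurd h hξ⟩
  choose Φ hΦ using h3
  let E' : Set L := E ∩ {γ : L | ∀ ξ < γ, Φ ξ < γ}
  have hE' : IsClub E' := hE.inter hcof (isClub_closure hκ h1 h2 Φ)
  refine ⟨fun β => E' ∩ Iic β, fun α => ?_, fun g B hB => ?_⟩
  · obtain ⟨e, he, hαe⟩ := hE'.isCofinal α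
    obtain ⟨b, hb⟩ := h2 {e} (by
      rw [mk_singleton]
      exact one_le_aleph0.trans hκ)
    obtain ⟨e', he', hbe'⟩ := hE'.isCofinal b
    have h4 : α < e' := hαe.trans_lt ((hb e rfl).trans_le hbe')
    refine ⟨e', fun β hβ => ?_⟩
    by_contra h5
    rw [not_lt] at h5
    have h6 : e' ∈ E' ∩ Iic β := ⟨he', h5⟩
    have hβ' : E' ∩ Iic β = E' ∩ Iic α := hβ
    rw [hβ'] at h6
    exact absurd h6.2 (not_le.2 h4)
  -- the least `γ` such that `B` has uncountably many points below `γ`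
  have hBu : ¬ B.Countable := by
    intro h
    rw [← le_aleph0_iff_set_countable, hB] at h
    exact absurd h (not_le.2 aleph0_lt_aleph_one)
  have h4 : ∃ γ, ¬ (B ∩ Iio γ).Countable := by
    by_cases h5 : ℵ₁ ≤ κ
    · obtain ⟨b, hb⟩ := h2 B (hB.le.trans h5)
      refine ⟨b, ?_⟩
      rwa [inter_eq_left.2 (show B ⊆ Iio b from hb)]
    · -- then `κ = ℵ₀`, which is impossible
      exfalso
      rw [not_le] at h5
      have h6 : κ ≤ ℵ₀ := by
        rw [← Order.lt_succ_iff, succ_aleph0]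
        exact h5
      have h7 := (hpow 0)
      have h8 : (ℵ₀ : Cardinal.{u}) < (c 0) ^ (ℵ₀ : Cardinal.{u}) := by
        refine lt_of_lt_of_le (cantor ℵ₀) ?_
        exact power_le_power_right ((natCast_lt_aleph0 (n := 2)).le.trans (hc 0))
      exact absurd (h7.trans h6) (not_le.2 h8)
  let γ := wellFounded_lt.min {γ | ¬ (B ∩ Iio γ).Countable} h4
  have hγ1 : ¬ (B ∩ Iio γ).Countable := wellFounded_lt.min_mem {γ | ¬ (B ∩ Iio γ).Countable} h4
  have hγ2 : ∀ β < γ, (B ∩ Iio β).Countable := by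
    intro β hβ
    by_contra h
    exact wellFounded_lt.not_lt_min {γ | ¬ (B ∩ Iio γ).Countable} h hβ
  -- uncountable subsets of `B` are cofinal below `γ`
  have hγ3 : ∀ S ⊆ B ∩ Iio γ, ¬ S.Countable → ∀ β < γ, ∃ x ∈ S, β < x := by
    intro S hS hSu β hβ
    by_contra hcon
    push Not at hcon
    refine hSu ((((hγ2 β hβ).union (countable_singleton β))).mono ?_)
    intro x hx
    rcases (hcon x hx).lt_or_eq with h | h
    · exact Or.inl ⟨(hS hx).1, h⟩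
    · exact Or.inr h
  have hpig : ∀ S : Set L, ¬ S.Countable → ∀ f : L → ℕ, ∃ n, ¬ {x ∈ S | f x ≤ n}.Countable := by
    intro S hS f
    by_contra hcon
    push Not at hcon
    refine hS ((countable_iUnion hcon).mono fun x hx => ?_)
    exact mem_iUnion.2 ⟨f x, hx, le_rfl⟩
  by_cases hγE : γ ∈ E'
  · -- the approachable case
    have hcofγ : Order.cof (Iio γ) = ℵ₁ := by
      apply le_antisymm
      · have h5 : IsCofinal {x : Iio γ | x.1 ∈ B} := by
          intro x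
          obtain ⟨y, hy, hxy⟩ := hγ3 _ subset_rfl hγ1 x.1 x.2
          exact ⟨⟨y, hy.2⟩, hy.1, hxy.le⟩
        refine (Order.cof_le h5).trans ?_
        rw [← hB]
        refine Cardinal.mk_le_of_injective (f := fun x => ⟨x.1.1, x.2⟩) ?_
        rintro ⟨⟨x, _⟩, _⟩ ⟨⟨y, _⟩, _⟩ h
        simpa using h
      · rw [Order.le_cof_iff]
        intro s hs
        by_contra hcon
        rw [not_le, ← succ_aleph0, Order.lt_succ_iff, le_aleph0_iff_set_countable] at hcon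
        refine hγ1 (((hcon.biUnion (t := fun x _ => B ∩ Iic x.1) fun x _ => ?_)).mono ?_)
        · refine ((hγ2 x.1 x.2).union (countable_singleton x.1)).mono ?_
          rintro y ⟨hy, hyx⟩
          rcases (show y ≤ x.1 from hyx).lt_or_eq with h | h
          · exact Or.inl ⟨hy, h⟩
          · exact Or.inr h
        · rintro y ⟨hy, hyγ⟩
          obtain ⟨x, hx, hyx⟩ := hs ⟨y, hyγ⟩
          simp only [mem_iUnion]
          exact ⟨x, hx, hy, hyx⟩
    by_cases hAP : Appr a γ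
    swap
    · exact Or.inl ⟨γ, hγE.1, hcofγ, hAP, hγ1, hγ2⟩
    right
    obtain ⟨A, hAγ, hA1, hA2, hA3⟩ := hAP
    -- the next element of `A`
    have h5 : ∀ β : L, ∃ x, β < γ → x ∈ A ∧ β < x ∧ ∀ y ∈ A, β < y → x ≤ y := by
      intro β
      by_cases hβ : β < γ
      · obtain ⟨x, hx⟩ := hA1 β hβ
        refine ⟨wellFounded_lt.min {x | x ∈ A ∧ β < x} ⟨x, hx⟩, fun _ =>
          ⟨(wellFounded_lt.min_mem {x | x ∈ A ∧ β < x} ⟨x, hx⟩).1,
            (wellFounded_lt.min_mem {x | x ∈ A ∧ β < x} ⟨x, hx⟩).2, fun y hy hβy => ?_⟩⟩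
        exact not_lt.1 (wellFounded_lt.not_lt_min {x | x ∈ A ∧ β < x} ⟨hy, hβy⟩)
      · exact ⟨β, fun h => absurd h hβ⟩
    choose nx hnx using h5
    obtain ⟨n, hn⟩ := hpig _ hγ1 (fun β => ℓ (nx β) β)
    set B2 : Set L := {x ∈ B ∩ Iio γ | ℓ (nx x) x ≤ n} with hB2
    have hB2s : B2 ⊆ B ∩ Iio γ := fun x hx => hx.1
    -- initial segments of `B2` are enumerated before `γ`
    have h6 : ∀ ζ < γ, ∃ η < γ, C η = B2 ∩ Iio ζ := by
      intro ζ hζ
      obtain ⟨x1, hx1, hζx1⟩ := hA1 ζ hζ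
      obtain ⟨x2, hx2, hx12⟩ := hA1 x1 (hAγ hx1)
      obtain ⟨ξ, hξγ, hξ⟩ := hA3 x2 (hAγ hx2)
      have h7 : B2 ∩ Iio ζ ⊆ WS ℓ (a ξ) n := by
        rintro β ⟨hβ, hβζ⟩
        have h8 := hnx β (hB2s hβ).2
        refine ⟨nx β, ?_, h8.2.1, hβ.2⟩
        rw [hξ]
        exact ⟨h8.1, (h8.2.2 x1 hx1 (lt_trans hβζ hζx1)).trans_lt hx12⟩
      obtain ⟨η, hη, hη'⟩ := hΦ ξ n _ (by rw [hξ]; exact hA2 x2 (hAγ hx2)) h7
        ((hγ2 ζ hζ).mono (inter_subset_inter_left _ fun x hx => (hB2s hx).1))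
      exact ⟨η, hη.trans (hγE.2 ξ hξγ), hη'⟩
    choose! idx hidx1 hidx2 using h6
    have h7 : ∀ ζ < γ, ∃ b ∈ B2, ζ < b ∧ idx ζ < b := by
      intro ζ hζ
      obtain ⟨b, hb, h8⟩ := hγ3 B2 hB2s hn (max ζ (idx ζ)) (max_lt hζ (hidx1 ζ hζ))
      exact ⟨b, hb, (le_max_left _ _).trans_lt h8, (le_max_right _ _).trans_lt h8⟩
    choose! b hb1 hb2 hb3 using h7
    obtain ⟨m, hm⟩ := hpig B2 hn (fun ζ => ℓ (b ζ) (idx ζ))
    set Z : Set L := {x ∈ B2 | ℓ (b x) (idx x) ≤ m} with hZ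
    have hZs : Z ⊆ B ∩ Iio γ := fun x hx => hB2s hx.1
    obtain ⟨z, hz1, hz2⟩ := exists_seq (P := fun x => x ∈ Z) (R := fun x y => b x < y)
      (by
        by_contra hcon
        push Not at hcon
        exact hm (by
          have : Z = ∅ := by
            ext x
            simp [hcon x]
          rw [this]
          exact countable_empty))
      (fun x hx => by
        obtain ⟨y, hy, hxy⟩ := hγ3 Z hZs hm (b x) (hB2s (hb1 x (hZs hx).2)).2
        exact ⟨y, hy, hxy⟩)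
    have hbz : StrictMono fun k => b (z k) := by
      refine strictMono_nat_of_lt_succ fun k => ?_
      exact (hz2 k).trans (hb2 _ (hZs (hz1 _)).2)
    refine ⟨range fun k => b (z k), m, ?_, infinite_range_of_injective hbz.injective, ?_⟩
    · rintro _ ⟨k, rfl⟩
      exact (hB2s (hb1 _ (hZs (hz1 _)).2)).1
    · rintro _ ⟨j, rfl⟩ _ ⟨k, rfl⟩ hjk
      have hjk' : j < k := hbz.lt_iff_lt.1 hjk
      refine ⟨hjk, Or.inr (Or.inr ⟨idx (z k), hb3 _ (hZs (hz1 _)).2, (hz1 k).2, ?_⟩)⟩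
      rw [hidx2 _ (hZs (hz1 k)).2]
      refine ⟨hb1 _ (hZs (hz1 _)).2, ?_⟩
      show b (z j) < z k
      have h8 : ∀ k, j < k → b (z j) < z k := by
        intro k hk
        induction k with
        | zero => omega
        | succ k ih =>
          rcases Nat.lt_succ_iff_lt_or_eq.1 hk with h | h
          · exact (ih h).trans ((hb2 _ (hZs (hz1 _)).2).trans (hz2 k))
          · rw [h]; exact hz2 k
      exact h8 k hjk'
  · -- the other case
    right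
    have h5 : ∃ β0 < γ, ∀ e ∈ E', e < γ → e ≤ β0 := by
      by_contra hcon
      push Not at hcon
      obtain ⟨x0, hx0, -⟩ : ∃ x ∈ B ∩ Iio γ, True := by
        by_contra h
        push Not at h
        refine hγ1 ?_
        have : B ∩ Iio γ = ∅ := by
          ext x
          constructor
          · intro hx
            exact (h x hx).elim
          · intro hx
            exact absurd hx (notMem_empty x)
        rw [this]
        exact countable_empty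
      obtain ⟨e0, he0, he0γ, -⟩ := hcon x0 hx0.2
      refine hγE (hE'.isLUB_mem (t := E' ∩ Iio γ) inter_subset_left ⟨e0, he0, he0γ⟩
        ⟨fun e he => he.2.le, fun y hy => ?_⟩)
      by_contra h6
      rw [not_le] at h6
      obtain ⟨e, he, heγ, hye⟩ := hcon y h6
      exact absurd (hy ⟨he, heγ⟩) (not_le.2 hye)
    obtain ⟨β0, hβ0, hβ0'⟩ := h5
    set B1 : Set L := {x ∈ B ∩ Iio γ | β0 < x} with hB1
    have hB1u : ¬ B1.Countable := by
      intro h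
      refine hγ1 ((h.union ((hγ2 β0 hβ0).union (countable_singleton β0))).mono fun x hx => ?_)
      rcases lt_trichotomy x β0 with h1 | h1 | h1
      · exact Or.inr (Or.inl ⟨hx.1, h1⟩)
      · exact Or.inr (Or.inr h1)
      · exact Or.inl ⟨hx, h1⟩
    have hcls : ∀ x ∈ B1, ∀ y ∈ B1, E' ∩ Iic x = E' ∩ Iic y := by
      have : ∀ x ∈ B1, E' ∩ Iic x = E' ∩ Iio γ := by
        intro x hx
        ext e
        constructor
        · rintro ⟨h1, h2⟩
          exact ⟨h1, lt_of_le_of_lt h2 hx.1.2⟩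
        · rintro ⟨h1, h2⟩
          exact ⟨h1, (hβ0' e h1 h2).trans hx.2.le⟩
      intro x hx y hy
      rw [this x hx, this y hy]
    obtain ⟨m, hm⟩ := hpig B1 hB1u g
    refine ⟨{x ∈ B1 | g x ≤ m}, m, fun x hx => hx.1.1.1, fun h => hm h.countable, ?_⟩
    intro β hβ α hα hβα
    exact ⟨hβα, Or.inr (Or.inl ⟨hcls β hβ.1 α hα.1, hβ.2⟩)⟩

end

end Pool.Agent.helper60.PR
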