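import Mathlib
import Pool.Agent.helper60.PR.Coloring

set_option autoImplicit false

/-!
# The partition
-/

open Cardinal Set Order

namespace Pool.Agent.helper60.PR

universe u

/-- A cofinal sequence of cardinals below a strong limit cardinal of countable cofinality. -/
theorem exists_c {κ : Cardinal.{u}} (h0 : ℵ₀ < κ) (hs : κ.IsStrongLimit)
    (hcof : κ.ord.cof = ℵ₀) :
    ∃ c : ℕ → Cardinal.{u}, StrictMono c ∧ (∀ m, ℵ₀ ≤ c m) ∧ (∀ m, c m < κ) ∧
      ∀ x < κ, ∃ m, x ≤ c m := by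
  obtain ⟨s, hs1, hs2⟩ := Order.exists_cof_eq (α := κ.ord.ToType)
  rw [Ordinal.cof_toType, hcof] at hs2
  have hne : Nonempty s := by
    rw [← mk_ne_zero_iff, hs2]
    exact aleph0_ne_zero
  have hct : Countable s := by
    rw [← mk_le_aleph0_iff]
    exact hs2.le
  obtain ⟨e, he⟩ := exists_surjective_nat s
  have hlim : ∀ x < κ, succ x < κ := fun x hx => hs.isSuccLimit.succ_lt hx
  let cd : κ.ord.ToType → Cardinal.{u} := fun x => #(Iio x)
  have hcd : ∀ x, cd x < κ := fun x => mk_Iio_toType_ord_lt x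
  let c : ℕ → Cardinal.{u} := fun n => Nat.rec ℵ₀ (fun k y => succ (max y (cd (e k)))) n
  have hc0 : c 0 = ℵ₀ := rfl
  have hcs : ∀ n, c (n + 1) = succ (max (c n) (cd (e n))) := fun n => rfl
  have hmono : StrictMono c := by
    refine strictMono_nat_of_lt_succ fun n => ?_
    rw [hcs, lt_succ_iff]
    exact le_max_left _ _
  refine ⟨c, hmono, fun m => hc0.symm.le.trans (hmono.monotone m.zero_le), fun m => ?_,
    fun x hx => ?_⟩
  · induction m with
    | zero => exact h0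
    | succ n ih =>
      rw [hcs]
      exact hlim _ (max_lt ih (hcd _))
  · by_contra hcon
    push Not at hcon
    -- all elements have fewer than `x` predecessors
    have h1 : ∀ y : κ.ord.ToType, #(Iio y) ≤ x := by
      intro y
      obtain ⟨z, hz, hyz⟩ := hs1 y
      obtain ⟨n, hn⟩ := he ⟨z, hz⟩
      refine (mk_le_mk_of_subset (Iio_subset_Iio hyz)).trans ?_
      have h2 := hcon (n + 1)
      rw [hcs, hn] at h2
      exact ((le_max_right (c n) _).trans (le_succ _)).trans h2.le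
    have h2 : κ.ord ≤ (succ x).ord := by
      rw [← Ordinal.type_toType κ.ord]
      by_contra h3
      rw [not_le] at h3
      obtain ⟨y, hy⟩ := Ordinal.typein_surj (α := κ.ord.ToType) (· < ·) h3
      have h4 := congrArg Ordinal.card hy
      rw [card_ord] at h4
      exact absurd (h4 ▸ h1 y) (not_le.2 (lt_succ x))
    exact absurd (ord_le_ord.1 h2) (not_le.2 (hlim x hx))

/-- Enumeration of a family of subsets. -/
theorem exists_enum {L X : Type u} (F : Set X) (hF : F.Nonempty) (h : #F ≤ #L) :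
    ∃ f : L → X, (∀ i, f i ∈ F) ∧ ∀ x ∈ F, ∃ i, f i = x := by
  obtain ⟨e⟩ := Cardinal.le_def _ _ |>.1 h
  have : Nonempty F := hF.to_subtype
  refine ⟨fun i => (Function.invFun e i : F), fun i => (Function.invFun e i : F).2,
    fun x hx => ⟨e ⟨x, hx⟩, ?_⟩⟩
  simp only [Function.leftInverse_invFun e.injective ⟨x, hx⟩]

theorem exists_partition {κ : Cardinal.{u}} (h0 : ℵ₀ < κ) (hs : κ.IsStrongLimit)
    (hcof : κ.ord.cof = ℵ₀) (hpow : (2 : Cardinal.{u}) ^ κ = succ κ)
    {K L : Type u} [LinearOrder L] [WellFoundedLT L] (hKc : #K = κ) (hLc : #L = succ κ)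
    (hIio : ∀ α : L, #(Iio α) ≤ κ) (hcofL : Order.cof L = succ κ)
    (a : L → Set L) {E : Set L} (hE : IsClub E) :
    ∃ Δ : K → L → Prop,
      (∀ (A : Set K) (B : Set L), #A = κ → #B = succ κ → ∃ x ∈ A, ∃ y ∈ B, Δ x y) ∧
      ∀ (A : Set K) (B : Set L), #A = κ → #B = ℵ₁ → (∀ x ∈ A, ∀ y ∈ B, Δ x y) →
        ∃ γ ∈ E, Order.cof (Iio γ) = ℵ₁ ∧ ¬ Appr a γ ∧ ¬ (B ∩ Iio γ).Countable ∧
          ∀ β < γ, (B ∩ Iio β).Countable := by
  classical
  obtain ⟨c, hmono, hc, hcκ, hsup⟩ := exists_c h0 hs hcof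
  have hcofne : Order.cof L ≠ ℵ₀ := by
    rw [hcofL]
    exact (h0.trans (lt_succ κ)).ne'
  have h1 : ∀ α : L, #(Iic α) ≤ κ := by
    intro α
    have : Iic α = insert α (Iio α) := by
      ext x
      simp [le_iff_eq_or_lt]
    rw [this]
    exact (mk_insert_le).trans ((add_le_add (hIio α) (one_le_aleph0.trans h0.le)).trans
      (add_eq_self h0.le).le)
  have h2 : ∀ s : Set L, #s ≤ κ → ∃ b, ∀ x ∈ s, x < b := by
    intro s hs
    have h3 : ¬ IsCofinal s := by
      intro h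
      have h4 := Order.cof_le h
      rw [hcofL] at h4
      exact absurd (h4.trans hs) (not_le.2 (lt_succ κ))
    rw [not_isCofinal_iff] at h3
    exact h3
  have hpow' : ∀ m, (c m) ^ (ℵ₀ : Cardinal.{u}) ≤ κ := by
    intro m
    refine (power_le_power_left (aleph0_pos.trans_le (hc m)).ne' (hc m)).trans ?_
    rw [power_self_eq (hc m)]
    exact (hs.isStrongPrelimit (hcκ m)).le
  -- levels
  have hℓ' : ∀ α : L, ∃ ℓ : L → ℕ, ∀ m, #{x : L | x ∈ Iio α ∧ ℓ x ≤ m} ≤ c m :=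
    fun α => exists_level hc hmono hsup (Iio α) (hIio α)
  choose ℓ hℓ using hℓ'
  -- countable sets
  have hctb : #{T : Set L | T.Countable} ≤ #L := by
    have h3 : #{T : Set L | T.Countable} = #{T : Set L // #T ≤ ℵ₀} := by
      simp only [le_aleph0_iff_set_countable]
      rfl
    rw [h3]
    refine (mk_bounded_set_le L ℵ₀).trans ?_
    rw [hLc, max_eq_left (h0.le.trans (le_succ κ)), ← hpow, ← power_mul,
      mul_aleph0_eq h0.le]
  obtain ⟨C, hC1, hC2⟩ := exists_enum (L := L) {T : Set L | T.Countable} ⟨∅, countable_empty⟩ hctb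
  -- classes
  obtain ⟨cls, hcls, hb⟩ := exists_bounded (κ := κ) (c := c) h0.le hc hpow' h1 h2
    (ℓ := ℓ) hℓ (C := C) hC2 a hE hcofne
  have hg' : ∀ v : Set L, ∃ ℓ : L → ℕ, ∀ m, #{x : L | x ∈ {β | cls β = v} ∧ ℓ x ≤ m} ≤ c m := by
    intro v
    refine exists_level hc hmono hsup _ ?_
    by_cases hv : ∃ α, cls α = v
    · obtain ⟨α, rfl⟩ := hv
      obtain ⟨b, hb⟩ := hcls α
      exact (mk_le_mk_of_subset (show {β | cls β = cls α} ⊆ Iio b from hb)).trans (hIio b)
    · push Not at hv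
      have : {β | cls β = v} = ∅ := by
        ext x
        simp [hv x]
      rw [this]
      simp
  choose g' hg'' using hg'
  set g : L → ℕ := fun β => g' (cls β) β with hg
  have hg1 : ∀ α m, #{β : L | cls β = cls α ∧ g β ≤ m} ≤ c m := by
    intro α m
    refine (mk_le_mk_of_subset ?_).trans (hg'' (cls α) m)
    rintro β ⟨h, h'⟩
    refine ⟨h, ?_⟩
    rw [hg] at h'
    simp only [h] at h'
    exact h'
  have hDS : ∀ m α, #(DS ℓ cls g C m α) ≤ c m := mk_DS_le hc hℓ hg1 hC1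
  -- the function `d`
  have hex : ∀ β α : L, ∃ m, β < α → β ∈ DS ℓ cls g C m α :=
    fun β α => ⟨ℓ α β, fun h => ⟨h, Or.inl le_rfl⟩⟩
  set d : L → L → ℕ := fun β α => Nat.find (hex β α) with hd
  have hdm : ∀ α m, #{β : L | β < α ∧ d β α ≤ m} ≤ c m := by
    intro α m
    refine (mk_le_mk_of_subset ?_).trans (hDS m α)
    rintro β ⟨h, h'⟩
    obtain ⟨h3, h4⟩ := Nat.find_spec (hex β α) h
    refine ⟨h, ?_⟩
    have h5 : Nat.find (hex β α) ≤ m := h'
    rcases h4 with h4 | h4 | ⟨ξ, hξ, h4, h6⟩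
    · exact Or.inl (h4.trans h5)
    · exact Or.inr (Or.inl ⟨h4.1, h4.2.trans h5⟩)
    · exact Or.inr (Or.inr ⟨ξ, hξ, h4.trans h5, h6⟩)
  -- the sets
  have hA' : #{A : Set K | #A = #K} ≤ #L := by
    refine (mk_subtype_le _).trans ?_
    rw [mk_set, hKc, hpow, hLc]
  obtain ⟨A, hA1, hA2⟩ := exists_enum (L := L) {A : Set K | #A = #K} ⟨univ, mk_univ⟩ hA'
  obtain ⟨S, hS1, hS2⟩ := exists_S (K := K) (L := L) (d := d) (c := c) hc
    (fun m => by rw [hKc]; exact hcκ m) hdm hA1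
  refine ⟨fun x α => x ∈ S α, fun X B hX hB => ?_, fun X B hX hB hXB => ?_⟩
  · obtain ⟨i, rfl⟩ := hA2 X (show #X = #K by rw [hX, hKc])
    obtain ⟨α, hα, hiα⟩ : ∃ α ∈ B, i < α := by
      by_contra hcon
      push Not at hcon
      have h3 := (mk_le_mk_of_subset (show B ⊆ Iic i from hcon)).trans (h1 i)
      rw [hB] at h3
      exact absurd h3 (not_le.2 (lt_succ κ))
    obtain ⟨x, hx1, hx2⟩ := hS1 i α hiα
    exact ⟨x, hx2, α, hα, hx1⟩
  · rcases hb g B hB with h | ⟨D, m, hD1, hD2, hD3⟩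
    · exact h
    · exfalso
      have h3 := hS2 D m hD2 (fun β hβ α hα hβα => Nat.find_le (fun _ => hD3 β hβ α hα hβα))
      have h4 : X ⊆ {y : K | ∀ α ∈ D, y ∈ S α} := fun x hx α hα => hXB x hx α (hD1 hα)
      have h5 := mk_le_mk_of_subset h4
      rw [hX, ← hKc] at h5
      exact absurd h3 (not_lt.2 h5)

end Pool.Agent.helper60.PR
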