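import Mathlib
import Pool.Agent.helper60.FcU.Sem

set_option autoImplicit false

/-!
# Cardinals, the generalized continuum hypothesis and polarized partition relations inside a
structure `(M, E)`
-/

namespace Pool.Agent.helper60.PR

open Pool.Agent.helper60.FcU.Sem (Fun Surj Ord Lim App Equip)

namespace Sem

variable {M : Type} (E : M → M → Prop)

/-- `w` is the set `ω` of natural numbers: a limit ordinal no element of which is a limit
ordinal. -/
def IsOmega (w : M) : Prop := Ord E w ∧ Lim E w ∧ ∀ x, E x w → ¬ Lim E x

/-- Some function maps `a` onto `b`. -/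
def Onto (a b : M) : Prop := ∃ f, Fun E f a b ∧ Surj E f a b

/-- `k` is a cardinal (an initial ordinal): an ordinal such that no function maps an element of `k`
onto `k`. -/
def Card (k : M) : Prop := Ord E k ∧ ∀ x, E x k → ¬ Onto E x k

/-- `l = k⁺` is the least cardinal greater than `k`. -/
def Next (k l : M) : Prop := Card E l ∧ E k l ∧ ∀ x, E x l → Card E x → (E x k ∨ x = k)

/-- `p` is the power set of `k`. -/
def Pow (p k : M) : Prop := ∀ z, E z p ↔ ∀ t, E t z → E t k

/-- The generalized continuum hypothesis (where `w = ω`): for every infinite cardinal `k` some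
function maps `k⁺` onto the power set of `k`. -/
def GCH (w : M) : Prop :=
  ∀ k l p, Card E k → (E w k ∨ w = k) → Next E k l → Pow E p k → Onto E l p

/-- `x` is a subset of `y`. -/
def Sub (x y : M) : Prop := ∀ t, E t x → E t y

/-- The polarized partition relation `(k, l) → ((a, b), (c, d))^{1,1}`: for every set `D` (of
pairs of colour `1`) there are either `A ⊆ k` and `B ⊆ l` with `|A| = |a|` and `|B| = |c|` such
that no pair of `A × B` is in `D`, or `A ⊆ k` and `B ⊆ l` with `|A| = |b|` and `|B| = |d|` such
that every pair of `A × B` is in `D`. -/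
def Pol (k l a b c d : M) : Prop := ∀ D,
  (∃ A B, Sub E A k ∧ Sub E B l ∧ Equip E A a ∧ Equip E B c ∧
    ∀ x, E x A → ∀ y, E y B → ¬ App E D x y) ∨
  ∃ A B, Sub E A k ∧ Sub E B l ∧ Equip E A b ∧ Equip E B d ∧
    ∀ x, E x A → ∀ y, E y B → App E D x y

end Sem

end Pool.Agent.helper60.PR
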