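import Mathlib
import Pool.Agent.helper60.FcU.Card
import Pool.Agent.helper60.PR.SemB

set_option autoImplicit false

/-!
# The formulas
-/

open FirstOrder FirstOrder.Language

namespace Pool.Agent.helper60.PR

open Pool.Agent.helper60.FcU

/-- `w` is `ω`. -/
def fIsOmega {n : ℕ} (w : Fin n) : Fm n := fOrd w ⊓ (fLim w ⊓ fBall w (∼(fLim nw)))

/-- There is a function from `a` onto `b`. -/
def fOnto {n : ℕ} (a b : Fin n) : Fm n := ∃' (fFun nw (up a) (up b) ⊓ fSurj nw (up a) (up b))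

/-- `k` is a cardinal. -/
def fCard {n : ℕ} (k : Fin n) : Fm n := fOrd k ⊓ fBall k (∼(fOnto nw (up k)))

/-- `l = k⁺`. -/
def fNext {n : ℕ} (k l : Fin n) : Fm n :=
  fCard l ⊓ (fMem k l ⊓ fBall l (fCard nw ⟹ (fMem nw (up k) ⊔ fEq nw (up k))))

/-- `a ⊆ b`. -/
def fSub {n : ℕ} (a b : Fin n) : Fm n := fBall a (fMem nw (up b))

/-- `p = P(k)`. -/
def fPow {n : ℕ} (p k : Fin n) : Fm n := ∀' (fMem nw (up p) ⇔ fSub nw (up k))

/-- GCH. -/
def fGCH {n : ℕ} (w : Fin n) : Fm n :=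
  ∀' (∀' (∀' (fCard (up (up nw)) ⟹ (fMem (up (up (up w))) (up (up nw)) ⊔
    fEq (up (up (up w))) (up (up nw))) ⟹ fNext (up (up nw)) (up nw) ⟹
      fPow nw (up (up nw)) ⟹ fOnto (up nw) nw)))

/-- No pair of `A × B` is in `D`. -/
def fHom0 {n : ℕ} (D A B : Fin n) : Fm n :=
  fBall A (fBall (up B) (∼(fApp (up (up D)) (up nw) nw)))

/-- Every pair of `A × B` is in `D`. -/
def fHom1 {n : ℕ} (D A B : Fin n) : Fm n :=
  fBall A (fBall (up B) (fApp (up (up D)) (up nw) nw))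

/-- The polarized partition relation. -/
def fPol {n : ℕ} (k l a b c d : Fin n) : Fm n :=
  ∀' ((∃' (∃' (fSub (up nw) (up (up (up k))) ⊓ (fSub nw (up (up (up l))) ⊓
      (fEquip (up nw) (up (up (up a))) ⊓ (fEquip nw (up (up (up c))) ⊓
        fHom0 (up (up nw)) (up nw) nw)))))) ⊔
    (∃' (∃' (fSub (up nw) (up (up (up k))) ⊓ (fSub nw (up (up (up l))) ⊓
      (fEquip (up nw) (up (up (up b))) ⊓ (fEquip nw (up (up (up d))) ⊓
        fHom1 (up (up nw)) (up nw) nw)))))))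

/-- The sentence. -/
def fMain : Fm 0 :=
  ∃' (fIsOmega nw ⊓ (fGCH nw ⊓ ∀' (∀' (∀' (fNext (up (up (up nw))) nw ⟹ fCard (up (up nw)) ⟹
    fMem (up (up (up nw))) (up (up nw)) ⟹ fNext (up (up nw)) (up nw) ⟹
      ∼(fPol (up (up nw)) (up nw) (up (up nw)) (up (up nw)) (up nw) nw))))))

section Sat

variable {M : Type} {E : M → M → Prop} {n : ℕ} {a : Fin n → M}

theorem sat_isOmega {w : Fin n} : Sat E (fIsOmega w) a ↔ Sem.IsOmega E (a w) := by
  simp only [fIsOmega, sat_and, sat_ord, sat_lim, sat_ball, sat_not, sn_nw, Sem.IsOmega]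

theorem sat_onto {x y : Fin n} : Sat E (fOnto x y) a ↔ Sem.Onto E (a x) (a y) := by
  simp only [fOnto, sat_ex, sat_and, sat_fun, sat_surj, sn_up, sn_nw, Sem.Onto]

theorem sat_card {k : Fin n} : Sat E (fCard k) a ↔ Sem.Card E (a k) := by
  simp only [fCard, sat_and, sat_ord, sat_ball, sat_not, sat_onto, sn_up, sn_nw, Sem.Card]

theorem sat_next {k l : Fin n} : Sat E (fNext k l) a ↔ Sem.Next E (a k) (a l) := by
  simp only [fNext, sat_and, sat_or, sat_imp, sat_card, sat_mem, sat_eq, sat_ball, sn_up,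
    sn_nw, Sem.Next]

theorem sat_sub {x y : Fin n} : Sat E (fSub x y) a ↔ Sem.Sub E (a x) (a y) := by
  simp only [fSub, sat_ball, sat_mem, sn_up, sn_nw, Sem.Sub]

theorem sat_pow {p k : Fin n} : Sat E (fPow p k) a ↔ Sem.Pow E (a p) (a k) := by
  simp only [fPow, sat_all, sat_iff, sat_mem, sat_sub, sn_up, sn_nw, Sem.Pow, Sem.Sub]

theorem sat_gch {w : Fin n} : Sat E (fGCH w) a ↔ Sem.GCH E (a w) := by
  simp only [fGCH, sat_all, sat_imp, sat_or, sat_card, sat_mem, sat_eq, sat_next, sat_pow,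
    sat_onto, sn_up, sn_nw, Sem.GCH]

theorem sat_pol {k l x y z t : Fin n} :
    Sat E (fPol k l x y z t) a ↔ Sem.Pol E (a k) (a l) (a x) (a y) (a z) (a t) := by
  simp only [fPol, fHom0, fHom1, sat_all, sat_or, sat_ex, sat_and, sat_sub, sat_equip, sat_ball,
    sat_not, sat_app, sn_up, sn_nw, Sem.Pol]

theorem sat_main {a : Fin 0 → M} : Sat E fMain a ↔ ∃ w, Sem.IsOmega E w ∧ Sem.GCH E w ∧
    ∀ k l o, Sem.Next E w o → Sem.Card E k → E w k → Sem.Next E k l →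
      ¬ Sem.Pol E k l k k l o := by
  simp only [fMain, sat_all, sat_ex, sat_and, sat_imp, sat_not, sat_isOmega, sat_gch, sat_next,
    sat_card, sat_mem, sat_pol, sn_up, sn_nw]

end Sat

section Fo

variable {P : Type} [Preorder P] [OrderTop P] {p : P} {n : ℕ} {xs : Fin n → Name P}

/-- `p` forces that some function maps `a` onto `b`. -/
def FOnto (a b : Name P) (p : P) : Prop := ∀ q ≤ p, ∃ r ≤ q, ∃ f, FFun f a b r ∧ FSurj f a b r

theorem fo_onto {a b : Fin n} : Fo (fOnto a b) xs p ↔ FOnto (xs a) (xs b) p := by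
  unfold fOnto FOnto
  rw [fo_ex]
  simp only [fo_and, fo_fun, fo_surj, sn_up, sn_nw]
  exact Iff.rfl

omit [OrderTop P] in
theorem fo_sub {a b : Fin n} : Fo (fSub a b) xs p ↔
    ∀ z, ∀ q ≤ p, ForcesMem z (xs a) q → ForcesMem z (xs b) q := by
  unfold fSub
  rw [fo_ball]
  simp only [fo_mem, sn_up, sn_nw]

end Fo

end Pool.Agent.helper60.PR
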