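import Mathlib
import Pool.Agent.helper60.PR.FormB

set_option autoImplicit false

/-!
# Names of ordinals and of cardinals
-/

open FirstOrder FirstOrder.Language Cardinal

namespace Pool.Agent.helper60.PR

open Pool.Agent.helper60.FcU

variable {P : Type} [Preorder P] [OrderTop P] {p : P} {n : ℕ} {xs : Fin n → Name P}

/-- `x` is forced to be transitive. -/
def FTr (x : Name P) (p : P) : Prop :=
  ∀ y, ∀ q ≤ p, ForcesMem y x q → ∀ z, ∀ r ≤ q, ForcesMem z y r → ForcesMem z x r

omit [OrderTop P] in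
theorem fo_trans {x : Fin n} : Fo (fTrans x) xs p ↔ FTr (xs x) p := by
  unfold fTrans FTr
  simp only [fo_ball, fo_mem, sn_up, sn_nw]

/-- `x` is forced to be an ordinal. -/
def FOr (x : Name P) (p : P) : Prop := FTr x p ∧ ∀ y, ∀ q ≤ p, ForcesMem y x q → FTr y q

omit [OrderTop P] in
theorem fo_ord {x : Fin n} : Fo (fOrd x) xs p ↔ FOr (xs x) p := by
  unfold fOrd FOr
  rw [fo_and, fo_trans, fo_ball]
  simp only [fo_trans, sn_nw]

omit [OrderTop P] in
theorem FOr.mem {x y : Name P} {q : P} (h : FOr x p) (hq : q ≤ p) (hy : ForcesMem y x q) :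
    FOr y q :=
  ⟨h.2 y q hq hy, fun z r hr hz => h.2 z r (hr.trans hq) (h.1 y q hq hy z r hr hz)⟩

/-- A name for an ordinal is (densely) equal to the canonical name of an ordinal. -/
theorem exists_oN_eq (x : Name P) : ∀ p, FOr x p → ∃ q ≤ p, ∃ α, ForcesEq x (oN P α) q := by
  induction x with
  | mk ι x a ih =>
    intro p h
    set X : Name P := Name.mk ι x a with hX
    -- all the values
    let S : Set Ordinal.{0} := {α | ∃ i, ∃ q, ForcesEq (x i) (oN P α) q}
    have hS : ∃ θ, ∀ α ∈ S, α < θ := by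
      classical
      have hch : ∀ t : ι × P, ∃ α : Ordinal.{0}, ∀ β, ForcesEq (x t.1) (oN P β) t.2 → β = α := by
        intro t
        by_cases ht : ∃ β, ForcesEq (x t.1) (oN P β) t.2
        · obtain ⟨α, hα⟩ := ht
          exact ⟨α, fun β hβ => oN_eq_oN.1 (hβ.symm.trans hα)⟩
        · exact ⟨0, fun β hβ => absurd ⟨β, hβ⟩ ht⟩
      choose g hg using hch
      refine ⟨Order.succ (⨆ t, g t), fun α hα => ?_⟩
      obtain ⟨i, q, hq⟩ := hα
      rw [hg (i, q) α hq, Order.lt_succ_iff]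
      exact Ordinal.le_iSup g (i, q)
    obtain ⟨θ, hθ⟩ := hS
    -- elements
    have hel : ∀ z, ∀ q ≤ p, ForcesMem z X q → ∃ r ≤ q, ∃ α ∈ S, ForcesEq z (oN P α) r := by
      intro z q hq hz
      obtain ⟨r, hr, i, hi, hzi⟩ := forcesMem_iff.1 hz q le_rfl
      have h1 : ForcesMem (x i) X r := (hz.mono hr).congr_left hzi
      obtain ⟨s, hs, α, hα⟩ := ih i r (h.mem (hr.trans hq) h1)
      exact ⟨s, hs.trans hr, α, ⟨i, s, hα⟩, (hzi.mono hs).trans hα⟩
    have hne : ∃ α, ¬ ForcesMem (oN P α) X p := by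
      refine ⟨θ, fun hcon => ?_⟩
      obtain ⟨r, hr, α, hα, h1⟩ := hel _ p le_rfl hcon
      rw [oN_eq_oN] at h1
      exact absurd (hθ α hα) (by rw [h1]; exact lt_irrefl _)
    obtain ⟨α, hα, hmin⟩ := WellFounded.has_min (wellFounded_lt (α := Ordinal.{0}))
      {α | ¬ ForcesMem (oN P α) X p} hne
    have hlt : ∀ β < α, ForcesMem (oN P β) X p := fun β hβ => by
      by_contra hcon
      exact hmin β hcon hβ
    obtain ⟨q, hq, hq'⟩ := ((ForcesMem.reg (oN P α) X).em p).resolve_left hα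
    refine ⟨q, hq, α, ForcesEq.ext (fun z r hr hz => ?_) (fun z r hr hz => ?_)⟩
    · refine mem_oN.2 fun s hs => ?_
      obtain ⟨t, ht, β, -, hβ⟩ := hel z s ((hs.trans hr).trans hq) (hz.mono hs)
      refine ⟨t, ht, β, ?_, hβ⟩
      by_contra hcon
      rw [not_lt] at hcon
      have htq : t ≤ q := (ht.trans hs).trans hr
      have hβX : ForcesMem (oN P β) X t := (hz.mono (ht.trans hs)).congr_left hβ
      rcases hcon.lt_or_eq with h1 | h1
      · exact hq' t htq (h.1 _ t (htq.trans hq) hβX _ t le_rfl (oN_mem_oN_of_lt h1 t))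
      · rw [← h1] at hβX
        exact hq' t htq hβX
    · refine (ForcesMem.reg _ _).dense fun s hs => ?_
      obtain ⟨t, ht, β, hβ, h1⟩ := mem_oN.1 hz s hs
      exact ⟨t, ht, ((hlt β hβ).mono (((ht.trans hs).trans hr).trans hq)).congr_left h1.symm⟩

theorem fOr_oN (o : Ordinal.{0}) : FOr (oN P o) p := by
  have := fo_ord_oN (x := (0 : Fin 1)) (xs := fun _ : Fin 1 => oN P o) (o := o) (p := p) rfl
  exact fo_ord.1 this

/-! ### Counting -/

/-- If a function from `β` onto `λ` is forced, then `|λ| ≤ |P| |β|`. -/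
theorem card_le_of_onto {f : Name P} {β μ : Ordinal.{0}} (hf : FFun f (oN P β) (oN P μ) p)
    (hs : FSurj f (oN P β) (oN P μ) p) : μ.card ≤ #P * β.card := by
  have h1 : ∀ j : μ.ToType, ∃ q ≤ p, ∃ i : β.ToType,
      ForcesMem (opN (oN P (ord i)) (oN P (ord j))) f q := by
    intro j
    obtain ⟨s, hs', x, hx, h2⟩ := hs _ p le_rfl (ord_mem j p) p le_rfl
    rw [oN_def'] at hx
    obtain ⟨t, ht, i, hi⟩ := mem_ck.1 hx s le_rfl
    exact ⟨t, ht.trans hs', i, (h2.mono ht).congr_left (opN_congr hi (ForcesEq.refl _ _))⟩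
  choose q hq i hi using h1
  have h2 : Function.Injective fun j => (q j, i j) := by
    intro j j' h
    have h3 : q j = q j' := congrArg Prod.fst h
    have h4 : i j = i j' := congrArg Prod.snd h
    have h5 := hi j'
    rw [← h3, ← h4] at h5
    have h6 := hf.func _ _ _ (q j) (hq j) (hi j) h5
    rwa [oN_eq_oN, FcU.ord_inj] at h6
  have h3 := mk_le_of_injective h2
  rw [mk_prod, lift_id, lift_id, mk_toType, mk_toType] at h3
  exact h3

theorem fOnto_card_le {β μ : Ordinal.{0}} (h : FOnto (oN P β) (oN P μ) p) :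
    μ.card ≤ #P * β.card := by
  obtain ⟨r, -, f, hf, hs⟩ := h p le_rfl
  exact card_le_of_onto hf hs

theorem FFun.congr_dom {f a a' b : Name P} (h : ForcesEq a a' p) (hf : FFun f a b p) :
    FFun f a' b p := by
  refine ⟨fun z q hq hz r hr => ?_, fun x q hq hx r hr => ?_, hf.func⟩
  · obtain ⟨s, hs, x, y, hx, hy, h1⟩ := hf.graph z q hq hz r hr
    exact ⟨s, hs, x, y, hx.congr_right (h.mono ((hs.trans hr).trans hq)), hy, h1⟩
  · exact hf.total x q hq (hx.congr_right (h.mono hq).symm) r hr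

theorem FFun.congr_cod {f a b b' : Name P} (h : ForcesEq b b' p) (hf : FFun f a b p) :
    FFun f a b' p := by
  refine ⟨fun z q hq hz r hr => ?_, fun x q hq hx r hr => ?_, hf.func⟩
  · obtain ⟨s, hs, x, y, hx, hy, h1⟩ := hf.graph z q hq hz r hr
    exact ⟨s, hs, x, y, hx, hy.congr_right (h.mono ((hs.trans hr).trans hq)), h1⟩
  · obtain ⟨s, hs, y, hy, h1⟩ := hf.total x q hq hx r hr
    exact ⟨s, hs, y, hy.congr_right (h.mono ((hs.trans hr).trans hq)), h1⟩

/-- A ground model surjection is forced to be a surjection. -/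
theorem fOnto_of_surj {α β : Ordinal.{0}} (g : α.ToType → β.ToType)
    (hg : Function.Surjective g) : FOnto (oN P α) (oN P β) p := by
  intro q _
  refine ⟨q, le_rfl, fnN P g, ffun_fnN g, ?_⟩
  rw [oN_def' α, oN_def' β]
  intro y q _ hy r hr
  exact surj_grN (p := q) (x := fun i => oN P (ord i)) (y := fun i => oN P (ord (g i)))
    (z := fun i => oN P (ord i)) (fun k => by
      obtain ⟨j, rfl⟩ := hg k
      exact ⟨j, fun q => ForcesEq.refl _ _⟩) y q le_rfl hy r hr

/-! ### Cardinals -/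

/-- `k` is forced to be a cardinal. -/
def FCard (k : Name P) (p : P) : Prop :=
  FOr k p ∧ ∀ x, ∀ q ≤ p, ForcesMem x k q → ∀ r ≤ q, ¬ FOnto x k r

theorem fo_card {k : Fin n} : Fo (fCard k) xs p ↔ FCard (xs k) p := by
  unfold fCard FCard
  rw [fo_and, fo_ord, fo_ball]
  simp only [fo_not, fo_onto, sn_up, sn_nw]

/-- `l` is forced to be the least cardinal greater than `k`. -/
def FNext (k l : Name P) (p : P) : Prop := FCard l p ∧ ForcesMem k l p ∧
  ∀ x, ∀ q ≤ p, ForcesMem x l q → ∀ r ≤ q, FCard x r →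
    ∀ s ≤ r, ∃ t ≤ s, ForcesMem x k t ∨ ForcesEq x k t

theorem fo_next {k l : Fin n} : Fo (fNext k l) xs p ↔ FNext (xs k) (xs l) p := by
  unfold fNext FNext
  rw [fo_and, fo_and, fo_card, fo_mem, fo_ball]
  simp only [fo_imp, fo_card, fo_or, fo_mem, fo_eq, sn_up, sn_nw]

theorem FCard.congr {k k' : Name P} (h : ForcesEq k k' p) (hk : FCard k p) : FCard k' p := by
  have h1 : Fo (fCard (0 : Fin 1)) ![k] p := fo_card.2 hk
  have h2 : Fo (fCard (0 : Fin 1)) ![k'] p := by
    refine (Forces.congr _ fun i => ?_).1 h1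
    fin_cases i
    exact h
  exact fo_card.1 h2

theorem FNext.congr {k k' l l' : Name P} (h : ForcesEq k k' p) (h' : ForcesEq l l' p)
    (hk : FNext k l p) : FNext k' l' p := by
  have h1 : Fo (fNext (0 : Fin 2) 1) ![k, l] p := fo_next.2 hk
  have h2 : Fo (fNext (0 : Fin 2) 1) ![k', l'] p := by
    refine (Forces.congr _ fun i => ?_).1 h1
    fin_cases i
    · exact h
    · exact h'
  exact fo_next.1 h2

theorem FCard.mono {k : Name P} {q : P} (hq : q ≤ p) (h : FCard k p) : FCard k q := by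
  have h1 : Fo (fCard (0 : Fin 1)) ![k] p := fo_card.2 h
  exact fo_card.1 (h1.mono hq)

theorem FNext.mono {k l : Name P} {q : P} (hq : q ≤ p) (h : FNext k l p) : FNext k l q := by
  have h1 : Fo (fNext (0 : Fin 2) 1) ![k, l] p := fo_next.2 h
  exact fo_next.1 (h1.mono hq)

theorem FOnto.mono {a b : Name P} {q : P} (hq : q ≤ p) (h : FOnto a b p) : FOnto a b q :=
  fun r hr => h r (hr.trans hq)

theorem FOnto.congr_left {a a' b : Name P} (h : ForcesEq a a' p) (hk : FOnto a b p) :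
    FOnto a' b p := by
  have h1 : Fo (fOnto (0 : Fin 2) 1) ![a, b] p := fo_onto.2 hk
  have h2 : Fo (fOnto (0 : Fin 2) 1) ![a', b] p := by
    refine (Forces.congr _ fun i => ?_).1 h1
    fin_cases i
    · exact h
    · exact ForcesEq.refl _ _
  exact fo_onto.1 h2

/-- Cardinals greater than `|P|` are preserved. -/
theorem fCard_oN {κ : Cardinal.{0}} (h : #P < κ) (hinf : ℵ₀ ≤ κ) : FCard (oN P κ.ord) p := by
  refine ⟨fOr_oN _, fun x q _ hx r hr hon => ?_⟩
  obtain ⟨s, hs, β, hβ, hxβ⟩ := mem_oN.1 hx r hr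
  have h1 := fOnto_card_le ((hon.mono hs).congr_left hxβ)
  rw [card_ord] at h1
  have h2 : β.card < κ := lt_ord.1 hβ
  exact absurd (mul_lt_of_lt hinf h h2) (not_lt.2 h1)

/-- A forced cardinal is a cardinal. -/
theorem FCard.isInitial {α : Ordinal.{0}} (h : FCard (oN P α) p) : α.card.ord = α := by
  by_contra hne
  have hlt : α.card.ord < α := lt_of_le_of_ne (ord_card_le α) hne
  have hpos : Nonempty α.ToType := by
    obtain ⟨i, -⟩ := exists_ord hlt
    exact ⟨i⟩
  have h1 : #α.ToType ≤ #α.card.ord.ToType := by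
    rw [mk_toType, mk_toType, card_ord]
  obtain ⟨e⟩ := Cardinal.le_def _ _ |>.1 h1
  exact h.2 _ p le_rfl (oN_mem_oN_of_lt hlt p) p le_rfl
    (fOnto_of_surj (Function.invFun e) (Function.invFun_surjective e.injective))

end Pool.Agent.helper60.PR
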