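import Mathlib
import Pool.Agent.helper60.PR.OrdN

set_option autoImplicit false

/-!
# Collapsing a set to `ω` with finite sequences
-/

open FirstOrder FirstOrder.Language Cardinal

namespace Pool.Agent.helper60.PR

open Pool.Agent.helper60.FcU

/-- The conditions: finite sequences of elements of `W`. -/
structure Cd (W : Type) where
  /-- the sequence -/
  l : List W

variable {W : Type}

instance : Preorder (Cd W) where
  le q p := p.l <+: q.l
  le_refl p := List.prefix_refl p.l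
  le_trans _ _ _ h h' := List.IsPrefix.trans h' h

instance : OrderTop (Cd W) where
  top := ⟨[]⟩
  le_top _ := List.nil_prefix

theorem Cd.le_def {p q : Cd W} : q ≤ p ↔ p.l <+: q.l := Iff.rfl

theorem Cd.get_mono {p q : Cd W} (h : q ≤ p) {n : ℕ} {v : W} (hv : p.l[n]? = some v) :
    q.l[n]? = some v := by
  obtain ⟨t, ht⟩ := h
  rw [← ht, List.getElem?_append_left]
  · exact hv
  · by_contra hcon
    rw [not_lt] at hcon
    rw [List.getElem?_eq_none hcon] at hv
    cases hv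

theorem Cd.mk_le [Infinite W] : #(Cd W) ≤ #W := by
  rw [← mk_list_eq_mk W]
  exact mk_le_of_injective (f := Cd.l) fun p q h => by
    cases p
    cases q
    simpa using h

/-- Conditions can be extended to any length. -/
theorem Cd.exists_ext [Nonempty W] (p : Cd W) (n : ℕ) : ∃ q ≤ p, ∃ v, q.l[n]? = some v := by
  obtain ⟨w⟩ := ‹Nonempty W›
  refine ⟨⟨p.l ++ List.replicate (n + 1) w⟩, List.prefix_append _ _, ?_⟩
  have h : n < (p.l ++ List.replicate (n + 1) w).length := by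
    rw [List.length_append, List.length_replicate]
    omega
  exact ⟨_, List.getElem?_eq_getElem h⟩

theorem Cd.exists_val (p : Cd W) (v : W) : ∃ q ≤ p, q.l[p.l.length]? = some v := by
  refine ⟨⟨p.l ++ [v]⟩, List.prefix_append _ _, ?_⟩
  simp

/-- The name of the composition of the generic map `ω → W` with `h`. -/
noncomputable def colN {β : Ordinal.{0}} (h : W → β.ToType) : Name (Cd W) :=
  .mk {t : (ℕ × W) × Cd W // t.2.l[t.1.1]? = some t.1.2}
    (fun t => opN (oN _ (t.1.1.1 : Ordinal.{0})) (oN _ (ord (h t.1.1.2)))) (fun t => t.1.2)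

variable {β : Ordinal.{0}} {h : W → β.ToType}

theorem mem_colN {z : Name (Cd W)} {p : Cd W} :
    ForcesMem z (colN h) p ↔ ∀ q ≤ p, ∃ r ≤ q, ∃ (n : ℕ) (v : W), r.l[n]? = some v ∧
      ForcesEq z (opN (oN _ (n : Ordinal.{0})) (oN _ (ord (h v)))) r := by
  constructor
  · intro hz q hq
    obtain ⟨r, hr, ⟨⟨⟨n, v⟩, q'⟩, hv⟩, hle, heq⟩ := hz q hq
    exact ⟨r, hr, n, v, Cd.get_mono hle hv, heq⟩
  · intro hz q hq
    obtain ⟨r, hr, n, v, hv, heq⟩ := hz q hq
    exact ⟨r, hr, ⟨((n, v), r), hv⟩, le_rfl, heq⟩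

theorem mem_colN_of {n : ℕ} {v : W} {p : Cd W} (hv : p.l[n]? = some v) :
    ForcesMem (opN (oN _ (n : Ordinal.{0})) (oN _ (ord (h v)))) (colN h) p :=
  mem_colN.2 fun q hq => ⟨q, le_rfl, n, v, Cd.get_mono hq hv, ForcesEq.refl _ _⟩

theorem ffun_colN [Nonempty W] (p : Cd W) :
    FFun (colN h) (oN _ Ordinal.omega0) (oN _ β) p := by
  refine ⟨fun z q _ hz r hr => ?_, fun x q _ hx r hr => ?_, fun x y y' q _ h1 h2 => ?_⟩
  · obtain ⟨s, hs, n, v, hv, heq⟩ := mem_colN.1 hz r hr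
    refine ⟨s, hs, _, _, ?_, ord_mem (h v) s, heq⟩
    rw [oN_mem_oN]
    exact Ordinal.natCast_lt_omega0 n
  · obtain ⟨s, hs, i, hi, hxi⟩ := mem_oN.1 hx r hr
    obtain ⟨n, rfl⟩ := Ordinal.lt_omega0.1 hi
    obtain ⟨t, ht, v, hv⟩ := s.exists_ext n
    exact ⟨t, ht.trans hs, oN _ (ord (h v)), ord_mem _ t,
      (mem_colN_of hv).congr_left (opN_congr (hxi.mono ht).symm (ForcesEq.refl _ _))⟩
  · refine (ForcesEq.reg _ _).dense fun r hr => ?_
    obtain ⟨s, hs, n, v, hv, heq⟩ := mem_colN.1 h1 r hr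
    obtain ⟨t, ht, n', v', hv', heq'⟩ := mem_colN.1 h2 s (hs.trans hr)
    rw [opN_inj] at heq heq'
    have h3 := (heq.1.mono ht).symm.trans heq'.1
    rw [oN_eq_oN] at h3
    have h3' : n = n' := by exact_mod_cast h3
    subst h3'
    have h4 := Cd.get_mono ht hv
    rw [hv'] at h4
    cases h4
    exact ⟨t, ht.trans hs, (heq.2.mono ht).trans heq'.2.symm⟩

theorem fsurj_colN (hh : Function.Surjective h) (p : Cd W) :
    FSurj (colN h) (oN _ Ordinal.omega0) (oN _ β) p := by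
  intro y q _ hy r hr
  rw [oN_def'] at hy
  obtain ⟨s, hs, j, hj⟩ := mem_ck.1 hy r hr
  obtain ⟨v, rfl⟩ := hh j
  obtain ⟨t, ht, hv⟩ := s.exists_val v
  refine ⟨t, ht.trans hs, oN _ (s.l.length : Ordinal.{0}), ?_, ?_⟩
  · rw [oN_mem_oN]
    exact Ordinal.natCast_lt_omega0 _
  · exact (mem_colN_of hv).congr_left (opN_congr (ForcesEq.refl _ _) (hj.mono ht).symm)

/-- Nonempty sets of cardinality at most `|W|` become countable. -/
theorem fOnto_omega [Nonempty W] {β : Ordinal.{0}} (hβ : β.card ≤ #W) (h0 : 0 < β) (p : Cd W) :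
    FOnto (oN _ Ordinal.omega0) (oN _ β) p := by
  have hne : Nonempty β.ToType := by
    obtain ⟨i, -⟩ := exists_ord h0
    exact ⟨i⟩
  have h1 : #β.ToType ≤ #W := by
    rw [mk_toType]
    exact hβ
  obtain ⟨e⟩ := Cardinal.le_def _ _ |>.1 h1
  intro q _
  exact ⟨q, le_rfl, colN (Function.invFun e), ffun_colN q,
    fsurj_colN (Function.invFun_surjective e.injective) q⟩

end Pool.Agent.helper60.PR
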