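import Mathlib
import Pool.Agent.helper60.PR.CollB

set_option autoImplicit false

/-!
# Cardinals after the collapse
-/

open FirstOrder FirstOrder.Language Cardinal Order

namespace Pool.Agent.helper60.PR

open Pool.Agent.helper60.FcU

variable {W : Type} [Infinite W] {p : Cd W}

theorem fCard_omega_or {α : Ordinal.{0}} (h : FCard (oN (Cd W) α) p) (hα : Ordinal.omega0 ≤ α) :
    α = Ordinal.omega0 ∨ (#W < α.card ∧ α.card.ord = α) := by
  rcases hα.eq_or_lt with h1 | h1
  · exact Or.inl h1.symm
  · refine Or.inr ⟨?_, h.isInitial⟩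
    by_contra hcon
    rw [not_lt] at hcon
    exact h.2 _ p le_rfl (oN_mem_oN_of_lt h1 p) p le_rfl
      (fOnto_omega hcon (Ordinal.omega0_pos.trans h1) p)

/-- The successor cardinal in the extension. -/
theorem fNext_eq {α β : Ordinal.{0}} (h : FNext (oN (Cd W) α) (oN (Cd W) β) p)
    (hα : Ordinal.omega0 ≤ α) : β = (succ (max α.card #W)).ord := by
  obtain ⟨h1, h2, h3⟩ := h
  rw [oN_mem_oN] at h2
  have hW : ℵ₀ ≤ #W := infinite_iff.1 inferInstance
  have hμ : ℵ₀ ≤ max α.card #W := hW.trans (le_max_right _ _)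
  have hPμ : #(Cd W) < succ (max α.card #W) :=
    Cd.mk_le.trans_lt (lt_succ_iff.2 (le_max_right _ _))
  have hαμ : α < (succ (max α.card #W)).ord := by
    rw [lt_ord, lt_succ_iff]
    exact le_max_left _ _
  rcases lt_trichotomy β (succ (max α.card #W)).ord with h4 | h4 | h4
  · exfalso
    rcases fCard_omega_or h1 (hα.trans h2.le) with h5 | ⟨h5, h6⟩
    · rw [h5] at h2
      exact absurd h2 (not_lt.2 hα)
    · have h7 : β.card ≤ max α.card #W := by
        rw [← lt_succ_iff]
        exact lt_ord.1 h4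
      rcases le_max_iff.1 h7 with h8 | h8
      · have h9 : β ≤ α := by
          rw [← h6]
          exact (ord_le_ord.2 h8).trans (ord_card_le α)
        exact absurd h2 (not_lt.2 h9)
      · exact absurd h5 (not_lt.2 h8)
  · exact h4
  · exfalso
    obtain ⟨t, -, h5⟩ := h3 _ p le_rfl (oN_mem_oN_of_lt h4 p) p le_rfl
      (fCard_oN hPμ (hμ.trans (le_succ _))) p le_rfl
    rcases h5 with h5 | h5
    · rw [oN_mem_oN] at h5
      exact absurd (h5.trans hαμ) (lt_irrefl _)
    · rw [oN_eq_oN] at h5
      rw [h5] at hαμ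
      exact lt_irrefl _ hαμ

end Pool.Agent.helper60.PR
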