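import Mathlib
import Pool.Agent.helper60.PR.CardB

set_option autoImplicit false

/-!
# GCH after the collapse
-/

open FirstOrder FirstOrder.Language Cardinal Order

namespace Pool.Agent.helper60.PR

open Pool.Agent.helper60.FcU

section

variable {P : Type} [Preorder P] [OrderTop P] {p : P} {α : Ordinal.{0}}

/-- The name of a subset of an ordinal. -/
noncomputable def subN (T : Set (α.ToType × P)) : Name P :=
  .mk T (fun t => oN P (ord t.1.1)) (fun t => t.1.2)

theorem mem_subN {T : Set (α.ToType × P)} {z : Name P} :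
    ForcesMem z (subN T) p ↔ ∀ q ≤ p, ∃ r ≤ q, ∃ i c, (i, c) ∈ T ∧ r ≤ c ∧
      ForcesEq z (oN P (ord i)) r := by
  constructor
  · intro hz q hq
    obtain ⟨r, hr, ⟨⟨i, c⟩, ht⟩, hle, heq⟩ := hz q hq
    exact ⟨r, hr, i, c, ht, hle, heq⟩
  · intro hz q hq
    obtain ⟨r, hr, i, c, ht, hle, heq⟩ := hz q hq
    exact ⟨r, hr, ⟨(i, c), ht⟩, hle, heq⟩

theorem subN_sub {T : Set (α.ToType × P)} {z : Name P} (hz : ForcesMem z (subN T) p) :
    ForcesMem z (oN P α) p := by
  refine (ForcesMem.reg _ _).dense fun q hq => ?_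
  obtain ⟨r, hr, i, c, -, -, heq⟩ := mem_subN.1 hz q hq
  exact ⟨r, hr, (ord_mem i r).congr_left heq.symm⟩

/-- Every name of a subset of `α` is equal to a nice name. -/
theorem eq_subN {y : Name P} (hy : ∀ z, ∀ q ≤ p, ForcesMem z y q → ForcesMem z (oN P α) q) :
    ForcesEq (subN {t : α.ToType × P | ForcesMem (oN P (ord t.1)) y t.2}) y p := by
  refine ForcesEq.ext (fun z q hq hz => ?_) (fun z q hq hz => ?_)
  · refine (ForcesMem.reg _ _).dense fun r hr => ?_
    obtain ⟨s, hs, i, c, hic, hle, heq⟩ := mem_subN.1 hz r hr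
    have h1 : ForcesMem (oN P (ord i)) y c := hic
    exact ⟨s, hs, (h1.mono hle).congr_left heq.symm⟩
  · refine mem_subN.2 fun r hr => ?_
    have h1 := hy z r (hr.trans hq) (hz.mono hr)
    rw [oN_def'] at h1
    obtain ⟨s, hs, i, hi⟩ := mem_ck.1 h1 r le_rfl
    exact ⟨s, hs, i, s, (hz.mono (hs.trans hr)).congr_left hi, le_rfl, hi⟩

/-- A large enough ordinal is mapped onto the power set. -/
theorem fOnto_pow {μ : Cardinal.{0}} {pw : Name P}
    (hμ : #(Set (α.ToType × P)) ≤ μ)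
    (hpw : ∀ z, ∀ q ≤ p, ForcesMem z pw q ↔
      ∀ t, ∀ r ≤ q, ForcesMem t z r → ForcesMem t (oN P α) r) :
    FOnto (oN P μ.ord) pw p := by
  have h1 : #(Set (α.ToType × P)) ≤ #μ.ord.ToType := by
    rw [mk_ord_toType]
    exact hμ
  obtain ⟨e'⟩ := Cardinal.le_def _ _ |>.1 h1
  let e : μ.ord.ToType → Set (α.ToType × P) := Function.invFun e'
  have he : Function.Surjective e := Function.invFun_surjective e'.injective
  let F : Name P := grN (fun ν : μ.ord.ToType => oN P (ord ν)) (fun ν => subN (e ν))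
  have hsub : ∀ (T : Set (α.ToType × P)), ∀ q ≤ p, ForcesMem (subN T) pw q :=
    fun T q hq => (hpw _ q hq).2 fun t r _ ht => subN_sub ht
  intro q₀ hq₀
  refine ⟨q₀, le_rfl, F, ⟨fun z q hq hz r hr => ?_, fun x q hq hx r hr => ?_,
    fun x y y' q hq h2 h3 => ?_⟩, fun y q hq hy r hr => ?_⟩
  · obtain ⟨s, hs, ν, hν⟩ := mem_ck.1 hz r hr
    exact ⟨s, hs, _, _, ord_mem ν s, hsub _ s (((hs.trans hr).trans hq).trans hq₀), hν⟩
  · rw [oN_def'] at hx
    obtain ⟨s, hs, ν, hν⟩ := mem_ck.1 hx r hr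
    refine ⟨s, hs, subN (e ν), hsub _ s (((hs.trans hr).trans hq).trans hq₀), ?_⟩
    exact (mem_grN_self (fun ν : μ.ord.ToType => oN P (ord ν)) (fun ν => subN (e ν)) ν
      s).congr_left (opN_congr hν.symm (ForcesEq.refl _ _))
  · refine (ForcesEq.reg _ _).dense fun r hr => ?_
    obtain ⟨s, hs, ν, h4, h5⟩ := mem_grN.1 h2 r hr
    obtain ⟨t, ht, ν', h6, h7⟩ := mem_grN.1 h3 s (hs.trans hr)
    have h8 := (h4.mono ht).symm.trans h6
    rw [oN_eq_oN, FcU.ord_inj] at h8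
    subst h8
    exact ⟨t, ht.trans hs, (h5.mono ht).trans h7.symm⟩
  · have h2 := (hpw y q (hq.trans hq₀)).1 hy
    have h3 := eq_subN h2
    obtain ⟨ν, hν⟩ := he {t : α.ToType × P | ForcesMem (oN P (ord t.1)) y t.2}
    refine ⟨r, le_rfl, oN P (ord ν), ord_mem ν r, ?_⟩
    refine (mem_grN_self (fun ν : μ.ord.ToType => oN P (ord ν)) (fun ν => subN (e ν)) ν
      r).congr_left (opN_congr (ForcesEq.refl _ _) ?_)
    rw [hν]
    exact h3.mono hr

end

/-- GCH is forced. -/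
theorem fo_gch {W : Type} [Infinite W] (hGCH : ∀ μ : Cardinal.{0}, ℵ₀ ≤ μ → 2 ^ μ = succ μ)
    {n : ℕ} {xs : Fin n → Name (Cd W)} {w : Fin n} (hw : xs w = oN _ Ordinal.omega0)
    (p : Cd W) : Fo (fGCH w) xs p := by
  unfold fGCH
  rw [fo_all]
  intro k
  rw [fo_all]
  intro l
  rw [fo_all]
  intro pw
  rw [fo_imp]
  intro q₁ _ h1
  rw [fo_imp]
  intro q₂ hq₂ h2
  rw [fo_imp]
  intro q₃ hq₃ h3
  rw [fo_imp]
  intro q₄ hq₄ h4
  rw [fo_card] at h1
  rw [fo_or] at h2
  rw [fo_next] at h3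
  unfold fPow at h4
  rw [fo_all] at h4
  simp only [fo_iff, fo_mem, fo_sub, fo_eq, sn_up, sn_nw] at h1 h2 h3 h4
  rw [fo_onto]
  simp only [sn_up, sn_nw]
  refine fun q hq => ?_
  have hq1 : q ≤ q₁ := ((hq.trans hq₄).trans hq₃).trans hq₂
  obtain ⟨r, hr, α, hα⟩ := exists_oN_eq k q (h1.mono hq1).1
  obtain ⟨s, hs, β, hβ⟩ := exists_oN_eq l r (h3.mono ((hr.trans hq).trans hq₄)).1.1
  obtain ⟨t, ht, h5⟩ := h2 s (((hs.trans hr).trans hq).trans (hq₄.trans hq₃))
  have htq₄ : t ≤ q₄ := ((ht.trans hs).trans hr).trans hq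
  have hωα : Ordinal.omega0 ≤ α := by
    rw [hw] at h5
    rcases h5 with h5 | h5
    · have h6 := h5.congr_right (hα.mono (ht.trans hs))
      rw [oN_mem_oN] at h6
      exact h6.le
    · have h6 := h5.trans (hα.mono (ht.trans hs))
      rw [oN_eq_oN] at h6
      exact h6.le
  have h6 : FNext (oN (Cd W) α) (oN (Cd W) β) t :=
    (h3.mono (htq₄.trans hq₄)).congr (hα.mono (ht.trans hs)) (hβ.mono ht)
  have h7 := fNext_eq h6 hωα
  have hW : ℵ₀ ≤ #W := infinite_iff.1 inferInstance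
  have hμ : ℵ₀ ≤ max α.card #W := hW.trans (le_max_right _ _)
  have h8 : FOnto (oN (Cd W) (succ (max α.card #W)).ord) pw t := by
    refine fOnto_pow (α := α) ?_ fun z q' hq' => ?_
    · rw [mk_set, ← hGCH _ hμ]
      refine power_le_power_left two_ne_zero ?_
      rw [mk_prod, lift_id, lift_id, mk_toType]
      refine (mul_le_mul' (le_max_left α.card #W)
        (Cd.mk_le.trans (le_max_right α.card #W))).trans ?_
      exact (mul_eq_self hμ).le
    · rw [h4 z q' (hq'.trans htq₄)]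
      have h9 : ForcesEq k (oN (Cd W) α) q' := hα.mono ((hq'.trans ht).trans hs)
      constructor
      · intro h x r' hr' hx
        exact (h x r' hr' hx).congr_right (h9.mono hr')
      · intro h x r' hr' hx
        exact (h x r' hr' hx).congr_right (h9.mono hr').symm
  rw [← h7] at h8
  obtain ⟨v, hv, f, hf1, hf2⟩ := h8.congr_left (hβ.mono ht).symm t le_rfl
  exact ⟨v, ((hv.trans ht).trans hs).trans hr, f, hf1, hf2⟩

end Pool.Agent.helper60.PR
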