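import Mathlib

set_option autoImplicit false

/-!
# Infinite homogeneous sets for colorings of the pairs of a set of size greater than the continuum
-/

open Cardinal Set

namespace Pool.Agent.helper60.PR

universe u

section

variable {B : Type u} [LinearOrder B] [WellFoundedLT B] {C : Type u} (d : B → B → C)

/-- The predecessors of `α` in the ramification tree. -/
def TS (α : B) : Set B :=
  (wellFounded_lt (α := B)).fix (C := fun _ => Set B)
    (fun α T => {β | ∃ h : β < α, ∀ γ ∈ T β h, d γ β = d γ α}) α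

theorem mem_TS {α β : B} : β ∈ TS d α ↔ β < α ∧ ∀ γ ∈ TS d β, d γ β = d γ α := by
  have h : TS d α = {β | ∃ _ : β < α, ∀ γ ∈ TS d β, d γ β = d γ α} :=
    (wellFounded_lt (α := B)).fix_eq _ α
  rw [h]
  simp only [Set.mem_ofPred_eq, exists_prop]

theorem TS_trans (γ : B) : ∀ α β : B, γ ∈ TS d β → β ∈ TS d α → γ ∈ TS d α := by
  induction γ using WellFoundedLT.induction with
  | _ γ ih =>
    intro α β h1 h2
    have h1' := (mem_TS d).1 h1
    have h2' := (mem_TS d).1 h2
    refine (mem_TS d).2 ⟨h1'.1.trans h2'.1, fun δ hδ => ?_⟩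
    have hδγ := ((mem_TS d).1 hδ).1
    rw [h1'.2 δ hδ]
    exact h2'.2 δ (ih δ hδγ β γ hδ h1)

/-- Two predecessors of the same point are comparable in the tree. -/
theorem TS_linear (β : B) : ∀ α β' : B, β ∈ TS d α → β' ∈ TS d α → β < β' → β ∈ TS d β' := by
  induction β using WellFoundedLT.induction with
  | _ β ih =>
    intro α β' h1 h2 hlt
    refine (mem_TS d).2 ⟨hlt, fun γ hγ => ?_⟩
    have hγβ := ((mem_TS d).1 hγ).1
    have h3 : γ ∈ TS d α := TS_trans d γ α β hγ h1
    have h4 : γ ∈ TS d β' := ih γ hγβ α β' h3 h2 (hγβ.trans hlt)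
    rw [((mem_TS d).1 h1).2 γ hγ, ((mem_TS d).1 h2).2 γ h4]

theorem TS_eq {α α' : B} (h : TS d α = TS d α') (h' : ∀ γ ∈ TS d α, d γ α = d γ α') : α = α' := by
  rcases lt_trichotomy α α' with h1 | h1 | h1
  · have h2 : α ∈ TS d α' := (mem_TS d).2 ⟨h1, h'⟩
    rw [← h] at h2
    exact absurd ((mem_TS d).1 h2).1 (lt_irrefl _)
  · exact h1
  · have h2 : α' ∈ TS d α := (mem_TS d).2 ⟨h1, fun γ hγ => (h' γ (h ▸ hγ)).symm⟩
    rw [h] at h2
    exact absurd ((mem_TS d).1 h2).1 (lt_irrefl _)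

theorem exists_TS_uncountable (hC : #C ≤ ℵ₀) (hB : (2 : Cardinal.{u}) ^ (ℵ₀ : Cardinal.{u}) < #B) :
    ∃ α, ¬ (TS d α).Countable := by
  classical
  by_contra hcon
  push Not at hcon
  have hinj : ∀ α, ∃ i : B → ℕ, InjOn i (TS d α) := by
    intro α
    have := (hcon α).to_subtype
    obtain ⟨f, hf⟩ := exists_injective_nat (TS d α)
    refine ⟨fun β => if h : β ∈ TS d α then f ⟨β, h⟩ else 0, fun β hβ β' hβ' h => ?_⟩
    simp only [dif_pos hβ, dif_pos hβ'] at h
    exact congrArg Subtype.val (hf h)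
  choose i hi using hinj
  -- the code of a point
  let code : B → (ULift.{u} (ℕ → ℕ → Prop)) × (ℕ → Set C) := fun α =>
    (⟨fun m n => ∃ β ∈ TS d α, ∃ γ ∈ TS d α, i α β = m ∧ i α γ = n ∧ β < γ⟩,
      fun n => {c | ∃ β ∈ TS d α, i α β = n ∧ d β α = c})
  have hcode : Function.Injective code := by
    intro α α' h
    have h1 : ∀ m n, (∃ β ∈ TS d α, ∃ γ ∈ TS d α, i α β = m ∧ i α γ = n ∧ β < γ) ↔
        ∃ β ∈ TS d α', ∃ γ ∈ TS d α', i α' β = m ∧ i α' γ = n ∧ β < γ := by
      intro m n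
      have h2 := congrArg (fun x => x.1.down m n) h
      exact Iff.of_eq h2
    have h2 : ∀ n c, (∃ β ∈ TS d α, i α β = n ∧ d β α = c) ↔
        ∃ β ∈ TS d α', i α' β = n ∧ d β α' = c := by
      intro n c
      have h3 := congrFun (congrArg (fun x => x.2) h) n
      exact Set.ext_iff.1 h3 c
    -- corresponding points are equal
    have key : ∀ β : B, β ∈ TS d α → ∀ β' ∈ TS d α', i α β = i α' β' → β = β' := by
      intro β
      induction β using WellFoundedLT.induction with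
      | _ β ih =>
        intro hβ β' hβ' hii
        -- the predecessors
        have hTS : TS d β = TS d β' := by
          ext γ
          constructor
          · intro hγ
            have hγβ := ((mem_TS d).1 hγ).1
            have hγα := TS_trans d γ α β hγ hβ
            obtain ⟨ε, hε, δ, hδ, e1, e2, e3⟩ := (h1 (i α γ) (i α β)).1 ⟨γ, hγα, β, hβ, rfl, rfl, hγβ⟩
            have e4 : δ = β' := hi α' hδ hβ' (e2.trans hii)
            have e5 : γ = ε := ih γ hγβ hγα ε hε e1.symm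
            rw [e4] at e3
            rw [e5]
            exact TS_linear d ε α' β' hε hβ' e3
          · intro hγ
            have hγβ := ((mem_TS d).1 hγ).1
            have hγα := TS_trans d γ α' β' hγ hβ'
            obtain ⟨ε, hε, δ, hδ, e1, e2, e3⟩ :=
              (h1 (i α' γ) (i α' β')).2 ⟨γ, hγα, β', hβ', rfl, rfl, hγβ⟩
            have e4 : δ = β := hi α hδ hβ (e2.trans hii.symm)
            rw [e4] at e3
            have e5 : ε = γ := ih ε e3 hε γ hγα e1
            rw [← e5]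
            exact TS_linear d ε α β hε hβ e3
        refine TS_eq d hTS fun γ hγ => ?_
        have hγ' : γ ∈ TS d β' := hTS ▸ hγ
        have hγα := TS_trans d γ α β hγ hβ
        have hγα' := TS_trans d γ α' β' hγ' hβ'
        rw [((mem_TS d).1 hβ).2 γ hγ, ((mem_TS d).1 hβ').2 γ hγ']
        obtain ⟨δ, hδ, e1, e2⟩ := (h2 (i α γ) (d γ α)).1 ⟨γ, hγα, rfl, rfl⟩
        have e3 : γ = δ := ih γ ((mem_TS d).1 hγ).1 hγα δ hδ e1.symm
        rw [← e2, e3]
    have hex : ∀ β ∈ TS d α, ∃ β' ∈ TS d α', i α' β' = i α β ∧ d β' α' = d β α := by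
      intro β hβ
      obtain ⟨β', hβ', e1, e2⟩ := (h2 (i α β) (d β α)).1 ⟨β, hβ, rfl, rfl⟩
      exact ⟨β', hβ', e1, e2⟩
    refine TS_eq d ?_ ?_
    · ext β
      constructor
      · intro hβ
        obtain ⟨β', hβ', e1, -⟩ := hex β hβ
        rw [key β hβ β' hβ' e1.symm]
        exact hβ'
      · intro hβ
        obtain ⟨β', hβ', e1, e2⟩ := (h2 (i α' β) (d β α')).2 ⟨β, hβ, rfl, rfl⟩
        rw [← key β' hβ' β hβ e1]
        exact hβ'
    · intro β hβ
      obtain ⟨β', hβ', e1, e2⟩ := hex β hβ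
      have := key β hβ β' hβ' e1.symm
      rw [← e2, this]
  have h1 := mk_le_of_injective hcode
  have h2 : #((ULift.{u} (ℕ → ℕ → Prop)) × (ℕ → Set C)) ≤ 2 ^ (ℵ₀ : Cardinal.{u}) := by
    have h3 : #(ℕ → ℕ → Prop) = 2 ^ (ℵ₀ : Cardinal.{0}) := by
      simp
    have h4 : #(ℕ → Set C) ≤ 2 ^ (ℵ₀ : Cardinal.{u}) := by
      have h5 : #(ℕ → Set C) = (#(Set C)) ^ (ℵ₀ : Cardinal.{u}) := by simp
      rw [h5, mk_set, ← power_mul]
      refine power_le_power_left two_ne_zero ?_
      refine (mul_le_mul' hC le_rfl).trans ?_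
      simp
    rw [mk_prod, lift_id, lift_id, mk_uLift, h3]
    have h6 : lift.{u} ((2 : Cardinal.{0}) ^ (ℵ₀ : Cardinal.{0})) = 2 ^ (ℵ₀ : Cardinal.{u}) := by
      simp
    rw [h6]
    refine (mul_le_mul' le_rfl h4).trans ?_
    exact (mul_eq_self (cantor _).le).le
  exact absurd (h1.trans h2) (not_le.2 hB)

/-- A coloring of the pairs of a set of size greater than the continuum with countably many
colours has an infinite homogeneous set. -/
theorem exists_homogeneous (hC : #C ≤ ℵ₀) (hB : (2 : Cardinal.{u}) ^ (ℵ₀ : Cardinal.{u}) < #B) :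
    ∃ (D : Set B) (c : C), D.Infinite ∧ ∀ β ∈ D, ∀ α ∈ D, β < α → d β α = c := by
  obtain ⟨α, hα⟩ := exists_TS_uncountable d hC hB
  have hC' : Countable C := mk_le_aleph0_iff.1 hC
  obtain ⟨c, hc⟩ : ∃ c, ¬ {β ∈ TS d α | d β α = c}.Countable := by
    by_contra hcon
    push Not at hcon
    refine hα ((countable_iUnion hcon).mono ?_)
    intro β hβ
    exact mem_iUnion.2 ⟨d β α, hβ, rfl⟩
  refine ⟨{β ∈ TS d α | d β α = c}, c, fun h => hc h.countable, ?_⟩
  rintro β ⟨hβ, hβc⟩ γ ⟨hγ, -⟩ hlt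
  rw [((mem_TS d).1 hγ).2 β (TS_linear d β α γ hβ hγ hlt), hβc]

end

end Pool.Agent.helper60.PR
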