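import Mathlib
import Pool.Agent.helper60.PR.Core
import Pool.Agent.helper60.PR.ErdosRado
import Pool.Agent.helper60.PR.Assembly

set_option autoImplicit false

/-!
# The partition in the ground model
-/

open Cardinal Set Order

namespace Pool.Agent.helper60.PR

universe u

/-- If `ℵ₁ < κ`, `2 ^ κ = κ⁺` and CH holds, there is a partition of `κ × κ⁺` without
homogeneous sets of size `κ × κ⁺` in colour `0` and of size `κ × ℵ₂` in colour `1`. -/
theorem exists_ground {κ : Cardinal.{u}} (h0 : ℵ₁ < κ)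
    (hpow : (2 : Cardinal.{u}) ^ κ = succ κ) (hCH : (2 : Cardinal.{u}) ^ (ℵ₀ : Cardinal.{u}) ≤ ℵ₁)
    {K L : Type u} [LinearOrder L] [WellFoundedLT L] (hKc : #K = κ) (hLc : #L = succ κ)
    (hIio : ∀ α : L, #(Iio α) ≤ κ) :
    ∃ Δ : K → L → Prop,
      (∀ (A : Set K) (B : Set L), #A = κ → #B = succ κ → ∃ x ∈ A, ∃ y ∈ B, Δ x y) ∧
      ∀ (A : Set K) (B : Set L), #A = κ → #B = succ ℵ₁ → ∃ x ∈ A, ∃ y ∈ B, ¬ Δ x y := by
  classical
  have hω : ℵ₀ < κ := aleph0_lt_aleph_one.trans h0
  -- a cofinal subset of `κ`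
  set Q : Type u := κ.ord.ToType with hQ
  obtain ⟨s, hs1, hs2⟩ := Order.exists_cof_eq (α := Q)
  have hIicQ : ∀ x : Q, #(Iic x) < κ := by
    intro x
    have : Iic x = insert x (Iio x) := by
      ext y
      simp [le_iff_eq_or_lt]
    rw [this]
    refine mk_insert_le.trans_lt (add_lt_of_lt hω.le ?_ (one_lt_aleph0.trans hω))
    exact mk_Iio_toType_ord_lt x
  let c : s → Cardinal.{u} := fun ν => max ℵ₀ #(Iic ν.1)
  have hc : ∀ ν, ℵ₀ ≤ c ν := fun ν => le_max_left _ _
  have hcκ : ∀ ν, c ν < κ := fun ν => max_lt hω (hIicQ ν.1)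
  -- injections into `κ`
  have he' : ∀ α : L, ∃ e : L → Q, InjOn e (Iio α) := by
    intro α
    have h1 : #(Iio α) ≤ #Q := (hIio α).trans (mk_ord_toType κ).ge
    obtain ⟨f⟩ := Cardinal.le_def _ _ |>.1 h1
    have hne : Nonempty Q := by
      rw [← mk_ne_zero_iff, hQ, mk_ord_toType]
      exact (aleph0_pos.trans hω).ne'
    refine ⟨fun β => if h : β < α then f ⟨β, h⟩ else Classical.choice hne,
      fun β hβ β' hβ' h => ?_⟩
    simp only [dif_pos (show β < α from hβ), dif_pos (show β' < α from hβ')] at h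
    exact congrArg Subtype.val (f.injective h)
  choose e he using he'
  have hex : ∀ x : Q, ∃ ν : s, x ≤ ν.1 ∧ ∀ ν' : s, x ≤ ν'.1 → ν ≤ ν' := by
    intro x
    have hne : {ν : s | x ≤ ν.1}.Nonempty := by
      obtain ⟨y, hy, hxy⟩ := hs1 x
      exact ⟨⟨y, hy⟩, hxy⟩
    refine ⟨wellFounded_lt.min _ hne, wellFounded_lt.min_mem _ hne, fun ν' hν' => ?_⟩
    exact not_lt.1 (wellFounded_lt.not_lt_min {ν : s | x ≤ ν.1} hν')
  choose nu hnu1 hnu2 using hex
  let d : L → L → s := fun β α => nu (e α β)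
  have hdm : ∀ α m, #{β : L | β < α ∧ d β α ≤ m} ≤ c m := by
    intro α m
    refine le_trans ?_ (le_max_right _ _)
    refine mk_le_of_injective (f := fun x => ⟨e α x.1, ?_⟩) ?_
    · exact (hnu1 (e α x.1)).trans x.2.2
    · rintro ⟨β, hβ, h⟩ ⟨β', hβ', h'⟩ hh
      have h1 := congrArg Subtype.val hh
      exact Subtype.ext (he α hβ hβ' h1)
  -- the sets
  have hA' : #{A : Set K | #A = #K} ≤ #L := by
    refine (mk_subtype_le _).trans ?_
    rw [mk_set, hKc, hpow, hLc]
  obtain ⟨A, hA1, hA2⟩ := exists_enum (L := L) {A : Set K | #A = #K} ⟨univ, mk_univ⟩ hA'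
  obtain ⟨S, hS1, hS2⟩ := exists_S (K := K) (L := L) (d := d) (c := c) hc
    (fun m => by rw [hKc]; exact hcκ m) hdm hA1
  have h1 : ∀ α : L, #(Iic α) ≤ κ := by
    intro α
    have : Iic α = insert α (Iio α) := by
      ext x
      simp [le_iff_eq_or_lt]
    rw [this]
    exact (mk_insert_le).trans ((add_le_add (hIio α) (one_le_aleph0.trans hω.le)).trans
      (add_eq_self hω.le).le)
  refine ⟨fun x α => x ∈ S α, fun X B hX hB => ?_, fun X B hX hB => ?_⟩
  · obtain ⟨i, rfl⟩ := hA2 X (show #X = #K by rw [hX, hKc])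
    obtain ⟨α, hα, hiα⟩ : ∃ α ∈ B, i < α := by
      by_contra hcon
      push Not at hcon
      have h3 := (mk_le_mk_of_subset (show B ⊆ Iic i from hcon)).trans (h1 i)
      rw [hB] at h3
      exact absurd h3 (not_le.2 (lt_succ κ))
    obtain ⟨x, hx1, hx2⟩ := hS1 i α hiα
    exact ⟨x, hx2, α, hα, hx1⟩
  · by_contra hcon
    push Not at hcon
    -- an infinite bounded subset
    obtain ⟨D, m, hD1, hD2, hD3⟩ : ∃ (D : Set L) (m : s), D ⊆ B ∧ D.Infinite ∧
        ∀ β ∈ D, ∀ α ∈ D, β < α → d β α ≤ m := by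
      by_cases hcase : #s ≤ ℵ₀
      · -- Erdős-Rado
        have hBl : (2 : Cardinal.{u}) ^ (ℵ₀ : Cardinal.{u}) < #B := by
          rw [hB]
          exact hCH.trans_lt (lt_succ _)
        obtain ⟨D, m, hD1, hD2⟩ := exists_homogeneous (B := B) (fun β α => d β.1 α.1) hcase hBl
        refine ⟨Subtype.val '' D, m, ?_, hD1.image Subtype.val_injective.injOn, ?_⟩
        · rintro _ ⟨x, -, rfl⟩
          exact x.2
        · rintro _ ⟨x, hx, rfl⟩ _ ⟨y, hy, rfl⟩ hxy
          exact (hD2 x hx y hy hxy).le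
      · -- a countable set of values is bounded
        have hBinf : B.Infinite := by
          intro h
          have h2 := h.lt_aleph0
          rw [hB] at h2
          exact absurd ((aleph0_lt_aleph_one.trans (lt_succ _)).trans h2) (lt_irrefl _)
        have : Infinite B := hBinf.to_subtype
        let b : ℕ → L := fun n => (Infinite.natEmbedding B n : L)
        have hb : Function.Injective b := Subtype.val_injective.comp
          (Infinite.natEmbedding B).injective
        let V : Set Q := range fun x : ℕ × ℕ => (d (b x.1) (b x.2)).1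
        have hV : ∃ z : Q, ∀ v ∈ V, v < z := by
          by_contra hcon'
          have h3 : IsCofinal V := by
            intro z
            push Not at hcon'
            exact hcon' z
          have h4 := Order.cof_le h3
          rw [← hs2] at h4
          refine hcase (h4.trans ?_)
          rw [le_aleph0_iff_set_countable]
          exact countable_range _
        obtain ⟨z, hz⟩ := hV
        obtain ⟨y, hy, hzy⟩ := hs1 z
        refine ⟨range b, ⟨y, hy⟩, ?_, infinite_range_of_injective hb, ?_⟩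
        · rintro _ ⟨n, rfl⟩
          exact (Infinite.natEmbedding B n).2
        · rintro _ ⟨j, rfl⟩ _ ⟨k, rfl⟩ -
          exact ((hz _ ⟨(j, k), rfl⟩).trans_le hzy).le
    have h3 := hS2 D m hD2 hD3
    have h4 : X ⊆ {y : K | ∀ α ∈ D, y ∈ S α} := fun x hx α hα => hcon x hx α (hD1 hα)
    have h5 := mk_le_mk_of_subset h4
    rw [hX, ← hKc] at h5
    exact absurd h3 (not_lt.2 h5)

end Pool.Agent.helper60.PR
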