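import Mathlib
import Pool.Agent.helper60.PR.GchB
import Pool.Agent.helper60.PR.Ground

set_option autoImplicit false

/-!
# Homogeneous sets of the extension contain large homogeneous sets of the ground model
-/

open FirstOrder FirstOrder.Language Cardinal Order

namespace Pool.Agent.helper60.PR

open Pool.Agent.helper60.FcU

section

variable {P : Type} [Preorder P] [OrderTop P] {p : P}

/-- The values of the inverse of a bijection can be decided. -/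
theorem exists_values {o : Ordinal.{0}} {θ : Cardinal.{0}} {X f : Name P}
    (hX : ∀ z, ∀ q ≤ p, ForcesMem z X q → ForcesMem z (oN P o) q)
    (hs : FSurj f X (oN P θ.ord) p) (η : θ.ord.ToType) :
    ∃ q ≤ p, ∃ y : o.ToType, ForcesMem (oN P (ord y)) X q ∧
      ForcesMem (opN (oN P (ord y)) (oN P (ord η))) f q := by
  obtain ⟨s, hs', x, hx, h1⟩ := hs _ p le_rfl (ord_mem η p) p le_rfl
  have h2 := hX x s hs' hx
  rw [oN_def'] at h2
  obtain ⟨t, ht, y, hy⟩ := mem_ck.1 h2 s le_rfl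
  exact ⟨t, ht.trans hs', y, (hx.mono ht).congr_left hy,
    (h1.mono ht).congr_left (opN_congr hy (ForcesEq.refl _ _))⟩

/-- The set of possible elements is large. -/
theorem le_mk_possible {o : Ordinal.{0}} {θ : Cardinal.{0}} {X f : Name P}
    (hX : ∀ z, ∀ q ≤ p, ForcesMem z X q → ForcesMem z (oN P o) q)
    (hf : FFun f X (oN P θ.ord) p) (hs : FSurj f X (oN P θ.ord) p) (hP : #P < θ) (hθ : ℵ₀ ≤ θ) :
    θ ≤ #{y : o.ToType | ∃ t ≤ p, ForcesMem (oN P (ord y)) X t} := by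
  by_contra hcon
  rw [not_le] at hcon
  choose q hq y hy1 hy2 using fun η : θ.ord.ToType => exists_values hX hs η
  have hinj : Function.Injective fun η : θ.ord.ToType =>
      ((q η, ⟨y η, q η, hq η, hy1 η⟩) :
        P × {y : o.ToType | ∃ t ≤ p, ForcesMem (oN P (ord y)) X t}) := by
    intro η η' h
    have h1 : q η = q η' := congrArg Prod.fst h
    have h2 : y η = y η' := congrArg (fun t => t.2.1) h
    have h3 := hy2 η'
    rw [← h1, ← h2] at h3
    have h4 := hf.func _ _ _ (q η) (hq η) (hy2 η) h3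
    rwa [oN_eq_oN, FcU.ord_inj] at h4
  have h1 := mk_le_of_injective hinj
  rw [mk_prod, lift_id, lift_id, mk_ord_toType] at h1
  exact absurd (mul_lt_of_lt hθ hP hcon) (not_lt.2 h1)

/-- Some condition decides many elements. -/
theorem exists_decided {o : Ordinal.{0}} {θ : Cardinal.{0}} {X f : Name P}
    (hX : ∀ z, ∀ q ≤ p, ForcesMem z X q → ForcesMem z (oN P o) q)
    (hf : FFun f X (oN P θ.ord) p) (hs : FSurj f X (oN P θ.ord) p) (hP : #P < θ)
    (hθ : θ.IsRegular) :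
    ∃ q ≤ p, ∃ B : Set o.ToType, #B = θ ∧ ∀ y ∈ B, ForcesMem (oN P (ord y)) X q := by
  choose q hq y hy1 hy2 using fun η : θ.ord.ToType => exists_values hX hs η
  obtain ⟨r, hr⟩ := Cardinal.infinite_pigeonhole q (by rw [mk_ord_toType]; exact hθ.1)
    (by rw [mk_ord_toType, hθ.cof_ord]; exact hP)
  rw [mk_ord_toType] at hr
  have hne : (q ⁻¹' {r}).Nonempty := by
    by_contra h
    rw [Set.not_nonempty_iff_eq_empty] at h
    rw [h, mk_eq_zero] at hr
    exact absurd hθ.1 (by rw [← hr]; exact not_le.2 aleph0_pos)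
  obtain ⟨η₀, hη₀⟩ := hne
  have hr' : r ≤ p := by
    rw [← show q η₀ = r from hη₀]
    exact hq η₀
  refine ⟨r, hr', y '' (q ⁻¹' {r}), ?_, ?_⟩
  · rw [mk_image_eq_of_injOn, hr]
    intro η hη η' hη' h
    have h1 : q η = r := hη
    have h2 : q η' = r := hη'
    have h3 := hy2 η
    have h4 := hy2 η'
    rw [h1] at h3
    rw [h2, ← h] at h4
    have h5 := hf.func _ _ _ r hr' h3 h4
    rwa [oN_eq_oN, FcU.ord_inj] at h5
  · rintro _ ⟨η, hη, rfl⟩
    rw [← show q η = r from hη]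
    exact hy1 η

theorem FSurj.congr_cod {f a b b' : Name P} (h : ForcesEq b b' p) (hf : FSurj f a b p) :
    FSurj f a b' p := fun y q hq hy r hr =>
  hf y q hq (hy.congr_right (h.mono hq).symm) r hr

/-- Homogeneous sets. -/
theorem exists_hom {κ θ : Cardinal.{0}} {μ : Ordinal.{0}} {A B k l c : Name P}
    (hk : ForcesEq k (oN P κ.ord) p) (hl : ForcesEq l (oN P μ) p)
    (hc : ForcesEq c (oN P θ.ord) p) (hPκ : #P < κ) (hκ : ℵ₀ ≤ κ) (hPθ : #P < θ)
    (hθ : θ.IsRegular)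
    (hA : ∀ z, ∀ q ≤ p, ForcesMem z A q → ForcesMem z k q)
    (hB : ∀ z, ∀ q ≤ p, ForcesMem z B q → ForcesMem z l q)
    (eA : ∀ q ≤ p, ∃ r ≤ q, ∃ f, FFun f A k r ∧ FInj f r ∧ FSurj f A k r)
    (eB : ∀ q ≤ p, ∃ r ≤ q, ∃ f, FFun f B c r ∧ FInj f r ∧ FSurj f B c r) :
    ∃ (A' : Set κ.ord.ToType) (B' : Set μ.ToType), #A' = κ ∧ #B' = θ ∧
      ∀ x ∈ A', ∀ y ∈ B', ∃ t ≤ p, ForcesMem (oN P (ord x)) A t ∧
        ForcesMem (oN P (ord y)) B t := by
  obtain ⟨q₁, hq₁, g, hg1, -, hg2⟩ := eB p le_rfl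
  obtain ⟨q₂, hq₂, B', hB1, hB2⟩ := exists_decided (X := B) (o := μ)
    (fun z q hq hz => (hB z q (hq.trans hq₁) hz).congr_right (hl.mono (hq.trans hq₁)))
    (FFun.congr_cod (hc.mono hq₁) hg1) (FSurj.congr_cod (hc.mono hq₁) hg2) hPθ hθ
  have hq2 : q₂ ≤ p := hq₂.trans hq₁
  obtain ⟨q₃, hq₃, f, hf1, -, hf2⟩ := eA q₂ hq2
  have hq3 : q₃ ≤ p := hq₃.trans hq2
  refine ⟨{y | ∃ t ≤ q₃, ForcesMem (oN P (ord y)) A t}, B', ?_, hB1, ?_⟩
  · refine le_antisymm ((mk_set_le _).trans (mk_ord_toType κ).le) ?_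
    exact le_mk_possible (X := A)
      (fun z q hq hz => (hA z q (hq.trans hq3) hz).congr_right (hk.mono (hq.trans hq3)))
      (FFun.congr_cod (hk.mono hq3) hf1) (FSurj.congr_cod (hk.mono hq3) hf2) hPκ hκ
  · rintro x ⟨t, ht, hx⟩ y hy
    exact ⟨t, ht.trans hq3, hx, (hB2 y hy).mono (ht.trans hq₃)⟩

end

/-- The polarized partition relation fails. -/
theorem not_fo_pol {P : Type} [Preorder P] [OrderTop P] {p : P} {n : ℕ} {xs : Fin n → Name P}
    {k l o : Fin n} {κ θ : Cardinal.{0}} (hk : ForcesEq (xs k) (oN P κ.ord) p)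
    (hl : ForcesEq (xs l) (oN P (succ κ).ord) p) (ho : ForcesEq (xs o) (oN P θ.ord) p)
    (hPκ : #P < κ) (hκ : ℵ₀ ≤ κ) (hPθ : #P < θ) (hθ : θ.IsRegular)
    (Δ : κ.ord.ToType → (succ κ).ord.ToType → Prop)
    (h0 : ∀ (A : Set κ.ord.ToType) (B : Set (succ κ).ord.ToType), #A = κ → #B = succ κ →
      ∃ x ∈ A, ∃ y ∈ B, Δ x y)
    (h1 : ∀ (A : Set κ.ord.ToType) (B : Set (succ κ).ord.ToType), #A = κ → #B = θ →
      ∃ x ∈ A, ∃ y ∈ B, ¬ Δ x y) :
    ¬ Fo (fPol k l k k l o) xs p := by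
  intro h
  unfold fPol at h
  rw [fo_all] at h
  let D : Name P := grN (ι := {t : κ.ord.ToType × (succ κ).ord.ToType // Δ t.1 t.2})
    (fun t => oN P (ord t.1.1)) (fun t => oN P (ord t.1.2))
  have hD : ∀ (x : κ.ord.ToType) (y : (succ κ).ord.ToType), ∀ q, ForcesMem (opN (oN P (ord x)) (oN P (ord y))) D q ↔ Δ x y := by
    intro x y q
    constructor
    · intro h
      obtain ⟨r, -, ⟨⟨x', y'⟩, hxy⟩, e1, e2⟩ := mem_grN.1 h q le_rfl
      rw [oN_eq_oN, FcU.ord_inj] at e1 e2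
      rw [e1, e2]
      exact hxy
    · intro h
      exact mem_grN_self (ι := {t : κ.ord.ToType × (succ κ).ord.ToType // Δ t.1 t.2})
        (fun t => oN P (ord t.1.1)) (fun t => oN P (ord t.1.2)) ⟨(x, y), h⟩ q
  obtain ⟨q, hq, hq'⟩ := fo_or.1 (h D) p le_rfl
  rcases hq' with hq' | hq'
  · obtain ⟨r, hr, A, hA⟩ := fo_ex.1 hq' q le_rfl
    obtain ⟨s, hs, B, hB⟩ := fo_ex.1 hA r le_rfl
    unfold fHom0 at hB
    simp only [fo_and, fo_sub, fo_equip, fo_ball, fo_not, fo_app, sn_up, sn_nw] at hB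
    obtain ⟨e1, e2, e3, e4, e5⟩ := hB
    have hsp : s ≤ p := (hs.trans hr).trans hq
    obtain ⟨A', B', hA', hB', hAB⟩ := exists_hom (hk.mono hsp) (hl.mono hsp) (hl.mono hsp) hPκ hκ
      (hPκ.trans (lt_succ κ)) (isRegular_succ hκ) e1 e2 e3 e4
    obtain ⟨x, hx, y, hy, hxy⟩ := h0 A' B' hA' hB'
    obtain ⟨t, ht, ht1, ht2⟩ := hAB x hx y hy
    exact e5 _ t ht ht1 _ t le_rfl ht2 t le_rfl ((hD x y t).2 hxy)
  · obtain ⟨r, hr, A, hA⟩ := fo_ex.1 hq' q le_rfl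
    obtain ⟨s, hs, B, hB⟩ := fo_ex.1 hA r le_rfl
    unfold fHom1 at hB
    simp only [fo_and, fo_sub, fo_equip, fo_ball, fo_app, sn_up, sn_nw] at hB
    obtain ⟨e1, e2, e3, e4, e5⟩ := hB
    have hsp : s ≤ p := (hs.trans hr).trans hq
    obtain ⟨A', B', hA', hB', hAB⟩ := exists_hom (hk.mono hsp) (hl.mono hsp) (ho.mono hsp) hPκ hκ
      hPθ hθ e1 e2 e3 e4
    obtain ⟨x, hx, y, hy, hxy⟩ := h1 A' B' hA' hB'
    obtain ⟨t, ht, ht1, ht2⟩ := hAB x hx y hy
    exact hxy ((hD x y t).1 (e5 _ t ht ht1 _ t le_rfl ht2))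

end Pool.Agent.helper60.PR
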