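import Mathlib
import Pool.Agent.helper60.FcU.ZFCModel
import Pool.Agent.helper60.PR.HomB

set_option autoImplicit false

/-!
# The model
-/

open FirstOrder FirstOrder.Language Cardinal Order

namespace Pool.Agent.helper60.PR

open Pool.Agent.helper60.FcU

section Fo

variable {P : Type} [Preorder P] [OrderTop P] {p : P} {n : ℕ} {xs : Fin n → Name P}

theorem fo_isOmega {w : Fin n} (hw : xs w = oN P Ordinal.omega0) : Fo (fIsOmega w) xs p := by
  unfold fIsOmega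
  rw [fo_and, fo_and]
  refine ⟨fo_ord_oN hw, fo_lim_oN hw Ordinal.isSuccLimit_omega0, ?_⟩
  rw [fo_ball_oN hw]
  intro i hi
  obtain ⟨m, rfl⟩ := Ordinal.lt_omega0.1 hi
  rw [fo_not]
  intro q _ h
  unfold fLim at h
  rw [fo_and] at h
  obtain ⟨h1, h2⟩ := h
  rw [fo_ex] at h1
  obtain ⟨r, hr, x, hx⟩ := h1 q le_rfl
  rw [fo_mem] at hx
  simp only [sn_up, sn_nw] at hx
  obtain ⟨s, hs, j, hj, -⟩ := mem_oN.1 hx r le_rfl
  rw [fo_ball_oN (o := (m : Ordinal.{0})) (by rw [sn_nw])] at h2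
  obtain ⟨m', rfl⟩ : ∃ m', m = m' + 1 := by
    cases m with
    | zero =>
      rw [Nat.cast_zero] at hj
      exact absurd hj (not_lt.2 zero_le)
    | succ m' => exact ⟨m', rfl⟩
  have h3 := h2 (m' : Ordinal.{0}) (by exact_mod_cast Nat.lt_succ_self m')
  rw [fo_bex_oN (o := ((m' + 1 : ℕ) : Ordinal.{0})) (by rw [sn_up, sn_nw])] at h3
  obtain ⟨t, ht, i, hi, h4⟩ := h3 q le_rfl
  rw [fo_mem] at h4
  simp only [sn_up, sn_nw] at h4
  rw [oN_mem_oN] at h4
  obtain ⟨i', rfl⟩ := Ordinal.lt_omega0.1 (hi.trans (Ordinal.natCast_lt_omega0 _))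
  have h5 : m' < i' := by exact_mod_cast h4
  have h6 : i' < m' + 1 := by exact_mod_cast hi
  omega

end Fo

/-- The set `ω₁`. -/
abbrev W1 : Type := (ℵ₁ : Cardinal.{0}).ord.ToType

theorem mk_W1 : #W1 = ℵ₁ := mk_ord_toType _

instance : Infinite W1 := by
  rw [infinite_iff, mk_W1]
  exact aleph0_lt_aleph_one.le

theorem fo_main (hGCH : ∀ μ : Cardinal.{0}, ℵ₀ ≤ μ → 2 ^ μ = succ μ)
    (xs : Fin 0 → Name (Cd W1)) (p : Cd W1) : Fo fMain xs p := by
  unfold fMain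
  refine fo_ex_of (oN _ Ordinal.omega0) ?_
  rw [fo_and, fo_and]
  refine ⟨fo_isOmega (by simp only [sn_nw]), fo_gch hGCH (by simp only [sn_nw]) p, ?_⟩
  rw [fo_all]
  intro k
  rw [fo_all]
  intro l
  rw [fo_all]
  intro o
  rw [fo_imp]
  intro q₁ _ h1
  rw [fo_imp]
  intro q₂ hq₂ h2
  rw [fo_imp]
  intro q₃ hq₃ h3
  rw [fo_imp]
  intro q₄ hq₄ h4
  rw [fo_not]
  intro q hq h5
  rw [fo_next] at h1 h4
  rw [fo_card] at h2
  rw [fo_mem] at h3
  simp only [sn_up, sn_nw] at h1 h2 h3 h4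
  have hq1 : q ≤ q₁ := ((hq.trans hq₄).trans hq₃).trans hq₂
  obtain ⟨r, hr, α, hα⟩ := exists_oN_eq k q (h2.mono ((hq.trans hq₄).trans hq₃)).1
  obtain ⟨s, hs, β, hβ⟩ := exists_oN_eq l r (h4.mono (hr.trans hq)).1.1
  obtain ⟨t, ht, γ, hγ⟩ := exists_oN_eq o s (h1.mono ((hs.trans hr).trans hq1)).1.1
  have hα' := hα.mono (ht.trans hs)
  have hβ' := hβ.mono ht
  have htq : t ≤ q := (ht.trans hs).trans hr
  have hωα : Ordinal.omega0 < α := by
    have h6 := (h3.mono (htq.trans (hq.trans hq₄))).congr_right hα'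
    rwa [oN_mem_oN] at h6
  have h6 : FCard (oN (Cd W1) α) t := (h2.mono (htq.trans ((hq.trans hq₄).trans hq₃))).congr hα'
  obtain ⟨h7, h8⟩ := (fCard_omega_or h6 hωα.le).resolve_left hωα.ne'
  rw [mk_W1] at h7
  -- the successors
  have h9 : β = (succ α.card).ord := by
    have := fNext_eq ((h4.mono (htq.trans hq)).congr hα' hβ') hωα.le
    rw [mk_W1, max_eq_left h7.le] at this
    exact this
  have h10 : γ = (succ (ℵ₁ : Cardinal.{0})).ord := by
    have := fNext_eq ((h1.mono (htq.trans hq1)).congr (ForcesEq.refl _ _) hγ) le_rfl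
    rw [mk_W1, Ordinal.card_omega0, max_eq_right aleph0_lt_aleph_one.le] at this
    exact this
  rw [h9] at hβ'
  rw [h10] at hγ
  rw [← h8] at hα'
  have hinf : ℵ₀ < α.card := aleph0_lt_aleph_one.trans h7
  obtain ⟨Δ, h11, h12⟩ := exists_ground (κ := α.card) (K := α.card.ord.ToType)
    (L := (succ α.card).ord.ToType) h7 (hGCH _ hinf.le)
    (by rw [hGCH _ le_rfl, succ_aleph0]) (mk_ord_toType _) (mk_ord_toType _)
    (fun a => lt_succ_iff.1 (mk_Iio_toType_ord_lt a))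
  have hP : #(Cd W1) ≤ ℵ₁ := Cd.mk_le.trans mk_W1.le
  refine not_fo_pol (κ := α.card) (θ := succ ℵ₁) (p := t) ?_ ?_ ?_ (hP.trans_lt h7) hinf.le
    (hP.trans_lt (lt_succ _)) (isRegular_succ aleph0_lt_aleph_one.le) Δ h11 h12 (h5.mono htq)
  · simp only [sn_up, sn_nw]
    exact hα'
  · simp only [sn_up, sn_nw]
    exact hβ'
  · simp only [sn_nw]
    exact hγ

/-- The model. -/
theorem exists_model_PR (hGCH : ∀ μ : Cardinal.{0}, ℵ₀ ≤ μ → 2 ^ μ = succ μ) :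
    ∃ (M : Type) (E : M → M → Prop), Countable M ∧ IsZFC E ∧ ∃ w : M, Sem.IsOmega E w ∧
      Sem.GCH E w ∧ ∀ k l o : M, Sem.Next E w o → Sem.Card E k → E w k → Sem.Next E k l →
        ¬ Sem.Pol E k l k k l o := by
  obtain ⟨G⟩ := exists_gen (nameUniv_univ (P := Cd W1)) ⊤
  have hZ : IsZFC G.E := G.isZFC
  have h := G.of_forces (fun xs _ => fo_main hGCH xs ⊤) Fin.elim0
  rw [sat_main] at h
  exact ⟨G.M, G.E, G.surj.countable, hZ, h⟩

end Pool.Agent.helper60.PR
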