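import Pool.Agent.helper48.PR.SpecC

/-!
# Project pr (MP_a2a22c_al): module C12, descent of matrix units
-/

set_option autoImplicit false

namespace Pool.Agent.PR

open Matrix

/-- The matrix units over the big field. -/
theorem C12_units {n : ℕ} {F' : Type} [Field F'] (x y : Matrix (Fin n) (Fin n) F')
    (hyx : y * x = 1) (i j k l : Fin n) :
    (x * Matrix.single i j 1 * y) * (x * Matrix.single k l 1 * y)
      = if j = k then x * Matrix.single i l 1 * y else 0 := by
  have h1 : (x * Matrix.single i j 1 * y) * (x * Matrix.single k l 1 * y)
      = x * (Matrix.single i j (1 : F') * (y * x) * Matrix.single k l 1) * y := by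
    simp only [Matrix.mul_assoc]
  rw [h1, hyx, Matrix.mul_one]
  by_cases hjk : j = k
  · subst hjk
    rw [if_pos rfl, Matrix.single_mul_single_same, one_mul]
  · rw [if_neg hjk, Matrix.single_mul_single_of_ne (h := hjk), Matrix.mul_zero, Matrix.zero_mul]

theorem C12 : C12_stmt := by
  intro n hn F F' _ _ _ f x y hxy hyx hf
  have hinj : Function.Injective (fun M : Matrix (Fin n) (Fin n) F => M.map (algebraMap F F')) := by
    intro A B hAB
    ext i j
    have := congrFun (congrFun hAB i) j
    exact (algebraMap F F').injective this
  -- a companion index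
  have hc : ∀ i : Fin n, ∃ c : Fin n, i ≠ c := by
    intro i
    by_cases hi : i.val = 0
    · exact ⟨⟨1, by omega⟩, fun h => by rw [h] at hi; simp at hi⟩
    · exact ⟨⟨0, by omega⟩, fun h => by rw [h] at hi; simp at hi⟩
  choose c hc using hc
  set e : Fin n → Fin n → Matrix (Fin n) (Fin n) F :=
    fun i j => if i = j then f i (c i) * f (c i) i else f i j with he
  have hemap : ∀ i j, (e i j).map (algebraMap F F') = x * Matrix.single i j 1 * y := by
    intro i j
    by_cases hij : i = j
    · subst hij
      simp only [he, if_true]
      rw [Matrix.map_mul, hf i (c i) (hc i), hf (c i) i (hc i).symm, C12_units x y hyx,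
        if_pos rfl]
    · simp only [he, if_neg hij]
      exact hf i j hij
  have hmul : ∀ i j k l, e i j * e k l = if j = k then e i l else 0 := by
    intro i j k l
    apply hinj
    show (e i j * e k l).map (algebraMap F F')
      = (if j = k then e i l else 0 : Matrix (Fin n) (Fin n) F).map (algebraMap F F')
    rw [Matrix.map_mul, hemap, hemap, C12_units x y hyx]
    by_cases hjk : j = k
    · rw [if_pos hjk, if_pos hjk, hemap]
    · rw [if_neg hjk, if_neg hjk]
      ext a b
      simp
  set o : Fin n := ⟨0, by omega⟩ with ho
  have he0 : e o o ≠ 0 := by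
    intro h0
    have h1 := hemap o o
    rw [h0] at h1
    have h2 : (Matrix.single o o (1 : F')) = 0 := by
      have h3 : y * (x * Matrix.single o o (1 : F') * y) * x = Matrix.single o o (1 : F') := by
        have : y * (x * Matrix.single o o (1 : F') * y) * x
            = (y * x) * Matrix.single o o (1 : F') * (y * x) := by
          simp only [Matrix.mul_assoc]
        rw [this, hyx, Matrix.one_mul, Matrix.mul_one]
      rw [← h3, ← h1]
      have : (0 : Matrix (Fin n) (Fin n) F).map (algebraMap F F') = 0 := by
        ext a b
        simp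
      rw [this, Matrix.mul_zero, Matrix.zero_mul]
    have h4 := congrFun (congrFun h2 o) o
    simp at h4
  have hab : ∃ a b, e o o a b ≠ 0 := by
    by_contra hcon
    push Not at hcon
    apply he0
    ext a b
    exact hcon a b
  obtain ⟨a, b, hab⟩ := hab
  set x' : Matrix (Fin n) (Fin n) F := Matrix.of fun r j => e j o r b with hx'
  set y' : Matrix (Fin n) (Fin n) F := Matrix.of fun i s => (e o o a b)⁻¹ * e o i a s with hy'
  have hyx' : y' * x' = 1 := by
    ext i j
    have h1 : (y' * x') i j = (e o o a b)⁻¹ * (e o i * e j o) a b := by
      rw [Matrix.mul_apply, Matrix.mul_apply, Finset.mul_sum]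
      refine Finset.sum_congr rfl fun s _ => ?_
      simp only [hx', hy', Matrix.of_apply]
      ring
    rw [h1, hmul]
    by_cases hij : i = j
    · rw [if_pos hij, hij, Matrix.one_apply_eq, inv_mul_cancel₀ hab]
    · rw [if_neg hij, Matrix.one_apply_ne hij]
      simp
  have hxy' : x' * y' = 1 := mul_eq_one_comm.mp hyx'
  refine ⟨x', y', hxy', hyx', ?_⟩
  intro i j hij
  have hfe : f i j = e i j := by simp only [he, if_neg hij]
  have hcol : e i j * x' = x' * Matrix.single i j 1 := by
    ext r l
    have h1 : (e i j * x') r l = (e i j * e l o) r b := by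
      rw [Matrix.mul_apply, Matrix.mul_apply]
      refine Finset.sum_congr rfl fun s _ => ?_
      simp only [hx', Matrix.of_apply]
    rw [h1, hmul]
    by_cases hjl : j = l
    · subst hjl
      rw [if_pos rfl, Matrix.mul_single_apply_same, mul_one]
      simp only [hx', Matrix.of_apply]
    · rw [if_neg hjl, Matrix.mul_single_apply_of_ne (hbj := fun h => hjl h.symm)]
      simp
  rw [hfe]
  calc e i j = e i j * (x' * y') := by rw [hxy', Matrix.mul_one]
    _ = (e i j * x') * y' := by rw [Matrix.mul_assoc]
    _ = x' * Matrix.single i j 1 * y' := by rw [hcol]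

end Pool.Agent.PR
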